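import Pool.Agent.P.MP_323ce2_nt.QF.StC

/-! Statements of the recursion layer of the descent: from one descent step, the flip and the
treatment of the exceptional terms to the mean value theorem for `L L F`. The short factors `F` are
abstract here. -/

namespace Pool.Agent.P.MP_323ce2_nt.QR

open Pool.Agent.P.MP_26a8c3_nt Pool.Agent.P.MP_26a8c3_nt.QO Pool.Agent.P.MP_26a8c3_nt.QA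
open Pool.Agent.P.MP_323ce2_nt.QZ Pool.Agent.P.MP_323ce2_nt.QF
open scoped Classical ComplexConjugate

noncomputable section

/-- exceptional for some character modulo `Q` -/
def EX (Q m : O) : Prop := ∃ ν, IsNu Q ν ∧ Exc Q ν m

/-- a finite family of nonexceptional elements of norm at most `M` -/
def NE (Q : O) (M : ℝ) (s : Finset O) : Prop := ∀ m ∈ s, m ≠ 0 ∧ (N m : ℝ) ≤ M ∧ ¬ EX Q m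

/-- the centered product -/
def VV (ν₁ ν₂ : O → ℂ) (c : ℂ) (τ Y₁ Y₂ t₁ t₂ : ℝ) (m : O) : ℂ :=
  Lm ν₁ m Y₁ t₁ * Lm ν₂ m Y₂ t₂ -
    c * (τ : ℂ) ^ (((t₁ - t₂ : ℝ) : ℂ) * Complex.I) * (Lm ν₁ m (Y₁ / τ) t₁ * Lm ν₂ m (Y₂ * τ) t₂)

/-- the two modes, with the size of the exceptional terms -/
def Md (c : ℂ) (τ Y₁ Y₂ E : ℝ) : Prop :=
  (c = 0 ∧ τ = 1 ∧ E = (1 + Y₁) * (1 + Y₂)) ∨ (c = 1 ∧ 1 ≤ τ ∧ E = 1 + Y₁ + Y₂ * τ)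

/-- the main bound -/
def TT (M η P : ℝ) : ℝ := M + P * (M * η) ^ (2 / 3 : ℝ)

/-- `η` is at least `max 1 (min Y₁ Y₂ √M)` -/
def Adm (M η Y₁ Y₂ : ℝ) : Prop := 1 ≤ η ∧ (Y₁ ≤ η ∨ Y₂ ≤ η ∨ M ≤ η ^ 2)

/-- the height factor -/
def ht (t₁ t₂ : ℝ) : ℝ := 1 + |t₁| + |t₂|

/-- abstract short factors: value, length, and the classes (at most `i` pieces of length `≤ K`) -/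
structure PD (D : Type) where
  F : D → O → ℂ
  L : D → ℝ
  cl : ℕ → ℝ → D → Prop
  len : ∀ i K x, cl i K x → 1 ≤ L x ∧ L x ≤ K ^ i
  bd : ∀ i K x m, cl i K x → ‖F x m‖ ≤ 16 ^ i * L x

variable {D : Type}

/-- the bound for the child sums, scales depending on `m` -/
def CH (Q : O) (d : PD D) (cls : D → Prop) (c : ℂ) (τ Y₁ Y₂ M₁ δ : ℝ) (β : ℝ → ℝ) (A : ℕ) : Prop :=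
  ∀ (ν₁ ν₂ : O → ℂ) (x : D) (t₁ t₂ y : ℝ) (s : Finset O) (ξ₁ ξ₂ : O → ℝ), IsNu Q ν₁ → IsNu Q ν₂ →
    cls x → M₁ ≤ y →
    (∀ m ∈ s, m ≠ 0 ∧ (N m : ℝ) ≤ y ∧ 0 < ξ₁ m ∧ ξ₁ m ≤ Y₁ ∧ 0 < ξ₂ m ∧ ξ₂ m ≤ Y₂) →
    ∑ m ∈ s, ‖VV ν₁ ν₂ c τ (ξ₁ m) (ξ₂ m) t₁ t₂ m * d.F x m‖ ^ 2 / (ξ₁ m * ξ₂ m) ^ (1 + δ) ≤
      β y * d.L x ^ (1 + δ) * ht t₁ t₂ ^ A

/-- one step of the descent without pieces: the family shrinks by `K ^ 6` -/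
def STEP0 (Q : O) (d : PD D) : Prop :=
  ∃ c₀ : ℝ, 0 ≤ c₀ ∧ ∀ (δ : ℝ) (A : ℕ), 0 < δ → δ ≤ 1 → ∃ (C Lc : ℝ) (A' : ℕ), 0 < C ∧ 1 ≤ Lc ∧
    ∀ (K M : ℝ) (x : D) (ν₁ ν₂ : O → ℂ) (c : ℂ) (τ Y₁ Y₂ t₁ t₂ b : ℝ) (s : Finset O), 2 ≤ K →
      K ^ 6 ≤ M → d.cl 0 K x → IsNu Q ν₁ → IsNu Q ν₂ → ‖c‖ ≤ 1 → 1 ≤ τ → 0 < Y₁ → 0 < Y₂ → 0 ≤ b →
      (∀ m ∈ s, m ≠ 0 ∧ (N m : ℝ) ≤ M) →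
      CH Q d (d.cl 0 K) c τ (Lc * Y₁) (Lc * Y₂) (M / K ^ 6) δ
        (fun y => b * (y / (M / K ^ 6)) ^ 12) A →
      ∑ m ∈ s, ‖VV ν₁ ν₂ c τ Y₁ Y₂ t₁ t₂ m * d.F x m‖ ^ 2 ≤
        C * (K * M * (1 + Y₁) * (1 + Y₂ * τ)) ^ (c₀ * δ) * ht t₁ t₂ ^ A' *
          (Y₁ * Y₂) ^ (1 + δ) * (M + K ^ 6 * (Y₁ * Y₂ + b))

/-- one step of the descent: removal of a piece of length `R` -/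
def STEP1 (Q : O) (d : PD D) (i : ℕ) : Prop :=
  ∃ c₀ : ℝ, 0 ≤ c₀ ∧ ∀ (δ : ℝ) (A : ℕ), 0 < δ → δ ≤ 1 → ∃ (C Lc : ℝ) (A' : ℕ), 0 < C ∧ 1 ≤ Lc ∧
    ∀ (K M : ℝ) (x : D), 2 ≤ K → K ^ 6 ≤ M → d.cl (i + 1) K x →
      ∃ R : ℝ, 1 ≤ R ∧ R ≤ K ∧
        ∀ (ν₁ ν₂ : O → ℂ) (c : ℂ) (τ Y₁ Y₂ t₁ t₂ b₁ b₂ b₃ : ℝ) (s : Finset O), IsNu Q ν₁ →
          IsNu Q ν₂ → ‖c‖ ≤ 1 → 1 ≤ τ → 0 < Y₁ → 0 < Y₂ → 0 ≤ b₁ → 0 ≤ b₂ → 0 ≤ b₃ →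
          (∀ m ∈ s, m ≠ 0 ∧ (N m : ℝ) ≤ M) →
          CH Q d (fun x' => d.cl i K x' ∧ d.L x' * R ≤ d.L x) c τ (Lc * Y₁) (Lc * Y₂) (M / R ^ 6) δ
            (fun y => (b₁ * y + b₂ * y ^ (2 / 3 : ℝ) + b₃) * (1 + y / M) ^ 12) A →
          ∑ m ∈ s, ‖VV ν₁ ν₂ c τ Y₁ Y₂ t₁ t₂ m * d.F x m‖ ^ 2 ≤
            C * (K * M * (1 + Y₁) * (1 + Y₂ * τ)) ^ (c₀ * δ) * ht t₁ t₂ ^ A' *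
              (Y₁ * Y₂ * d.L x) ^ (1 + δ) * (M + K ^ 6 * (Y₁ * Y₂ * d.L x + b₃) + b₁ * M +
                R * b₂ * M ^ (2 / 3 : ℝ))

/-- the mean value bound at level `j` with `i` pieces, with an extra factor `g ^ A` -/
def HG (Q : O) (d : PD D) (g : ℝ → ℝ → ℝ → ℝ) (j i : ℕ) : Prop :=
  ∃ c δ₀ : ℝ, 0 ≤ c ∧ 0 < δ₀ ∧ δ₀ ≤ 1 ∧ ∀ δ : ℝ, 0 < δ → δ ≤ δ₀ → ∃ (C : ℝ) (A : ℕ), 0 < C ∧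
    ∀ (K M η Y₁ Y₂ t₁ t₂ : ℝ) (x : D) (ν₁ ν₂ : O → ℂ) (s : Finset O), 2 ≤ K → 1 ≤ M →
      d.cl i K x → IsNu Q ν₁ → IsNu Q ν₂ → 0 < Y₁ → 0 < Y₂ → Adm M η Y₁ Y₂ → NE Q M s →
      ∑ m ∈ s, ‖Lm ν₁ m Y₁ t₁ * Lm ν₂ m Y₂ t₂ * d.F x m‖ ^ 2 ≤
        C * K ^ 54 * (K * M) ^ (c * δ) * (ht t₁ t₂ * g M Y₁ Y₂) ^ A * (Y₁ * Y₂ * d.L x) ^ (1 + δ) *
          (TT M η (d.L x) * (1 + M / K ^ (6 * j)) ^ 9)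

/-- the mean value bound -/
def HH (Q : O) (d : PD D) (j i : ℕ) : Prop := HG Q d (fun _ _ _ => 1) j i

/-- the growth factor -/
def gr (M Y₁ Y₂ : ℝ) : ℝ := (1 + Y₁ / √M) * (1 + Y₂ / √M)

/-- the output of one step, centered or not -/
def AB (Q : O) (d : PD D) (j i : ℕ) : Prop :=
  ∃ c δ₀ : ℝ, 0 ≤ c ∧ 0 < δ₀ ∧ δ₀ ≤ 1 ∧ ∀ δ : ℝ, 0 < δ → δ ≤ δ₀ → ∃ (C : ℝ) (A : ℕ), 0 < C ∧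
    ∀ (K M η τ E Y₁ Y₂ t₁ t₂ : ℝ) (z : ℂ) (x : D) (ν₁ ν₂ : O → ℂ) (s : Finset O), 2 ≤ K →
      K ^ 6 ≤ M → d.cl i K x → IsNu Q ν₁ → IsNu Q ν₂ → 0 < Y₁ → 0 < Y₂ → Md z τ Y₁ Y₂ E →
      Adm M η Y₁ Y₂ → Adm M η (Y₁ / τ) (Y₂ * τ) → (∀ m ∈ s, m ≠ 0 ∧ (N m : ℝ) ≤ M) →
      ∑ m ∈ s, ‖VV ν₁ ν₂ z τ Y₁ Y₂ t₁ t₂ m * d.F x m‖ ^ 2 ≤
        C * K ^ 54 * (K * M * (1 + Y₁) * (1 + Y₂ * τ)) ^ (c * δ) * ht t₁ t₂ ^ A *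
          (Y₁ * Y₂ * d.L x) ^ (1 + δ) * (TT M η (d.L x) * (1 + M / K ^ (6 * j)) ^ 9 +
            d.L x * (Y₁ * Y₂ + M ^ (1 / 6 : ℝ) * E))

/-- the maximal form of the mean value bound -/
def MX (Q : O) (d : PD D) (j i : ℕ) : Prop :=
  ∃ c δ₀ : ℝ, 0 ≤ c ∧ 0 < δ₀ ∧ δ₀ ≤ 1 ∧ ∀ δ : ℝ, 0 < δ → δ ≤ δ₀ → ∃ (C : ℝ) (A : ℕ), 0 < C ∧
    ∀ (K M y η Y₁ Y₂ t₁ t₂ : ℝ) (x : D) (ν₁ ν₂ : O → ℂ) (s : Finset O) (ξ₁ ξ₂ : O → ℝ),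
      2 ≤ K → 1 ≤ M → 1 ≤ y → d.cl i K x → IsNu Q ν₁ → IsNu Q ν₂ → 0 < Y₁ → 0 < Y₂ →
      Adm M η Y₁ Y₂ → NE Q y s → (∀ m ∈ s, 0 < ξ₁ m ∧ ξ₁ m ≤ Y₁ ∧ 0 < ξ₂ m ∧ ξ₂ m ≤ Y₂) →
      ∑ m ∈ s, ‖Lm ν₁ m (ξ₁ m) t₁ * Lm ν₂ m (ξ₂ m) t₂ * d.F x m‖ ^ 2 / (ξ₁ m * ξ₂ m) ^ (1 + δ) ≤
        C * K ^ 54 * (K * M) ^ (c * δ) * (Y₁ * Y₂) ^ δ * (1 + M / K ^ (6 * j)) ^ 9 *
          (TT y η (d.L x) * (1 + y / M) ^ 11) * d.L x ^ (1 + δ) * ht t₁ t₂ ^ A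

end

/-! ### packages -/

/-- the number of exceptional elements -/
def S_Cnt : Prop :=
  ∀ Q : O, Q ≠ 0 → 36 ∣ Q → ∃ C : ℝ, 0 < C ∧ ∀ (y : ℝ) (s : Finset O), 1 ≤ y →
    (∀ m ∈ s, m ≠ 0 ∧ (N m : ℝ) ≤ y ∧ EX Q m) → (s.card : ℝ) ≤ C * y ^ (1 / 6 : ℝ)

/-- main term for an exceptional element and an arbitrary character -/
def S_Main : Prop :=
  ∀ Q : O, Q ≠ 0 → 36 ∣ Q → ∃ (C : ℝ) (k : ℕ), 0 < C ∧ ∀ (ν : O → ℂ) (m : O), IsNu Q ν → m ≠ 0 →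
    EX Q m → ∃ κ : ℂ, ‖κ‖ ≤ C * dv m ∧ ∀ X t : ℝ, 0 < X →
      ‖Lm ν m X t - κ * Wt X t 1‖ ≤ C * (1 + |t|) ^ k * dv m * min 1 X

/-- the centered product at an exceptional element -/
def S_Cen : Prop :=
  ∀ Q : O, Q ≠ 0 → 36 ∣ Q → ∃ (C : ℝ) (k : ℕ), 0 < C ∧ ∀ (ν₁ ν₂ : O → ℂ) (m : O) (z : ℂ)
    (δ τ E Y₁ Y₂ ξ₁ ξ₂ t₁ t₂ : ℝ), IsNu Q ν₁ → IsNu Q ν₂ → m ≠ 0 → EX Q m → 0 < δ → δ ≤ 1 →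
    Md z τ Y₁ Y₂ E → 0 < ξ₁ → ξ₁ ≤ Y₁ → 0 < ξ₂ → ξ₂ ≤ Y₂ →
    ‖VV ν₁ ν₂ z τ ξ₁ ξ₂ t₁ t₂ m‖ ^ 2 ≤ C * dv m ^ 4 * ht t₁ t₂ ^ k * E * (ξ₁ * ξ₂) ^ (1 + δ)

/-- a crude pointwise bound -/
def S_Pt : Prop :=
  ∀ Q : O, Q ≠ 0 → 36 ∣ Q → ∃ (C : ℝ) (k : ℕ), 0 < C ∧ ∀ (ν : O → ℂ) (m : O) (δ M Y t : ℝ),
    IsNu Q ν → m ≠ 0 → (N m : ℝ) ≤ M → ¬ EX Q m → 0 < δ → δ ≤ 1 → 0 < Y →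
    ‖Lm ν m Y t‖ ^ 2 ≤ C * (1 + |t|) ^ k * M ^ 4 * Y ^ (1 + δ)

/-- the maximal inequality in one scale -/
def S_Mx : Prop :=
  ∀ δ : ℝ, 0 < δ → δ ≤ 1 → ∃ C : ℝ, 0 < C ∧ ∀ (s : Finset O) (wt ξ : O → ℝ) (u : O → O → ℂ)
    (X t β : ℝ), 0 < X → 0 ≤ β → (∀ m ∈ s, 0 ≤ wt m ∧ 0 < ξ m ∧ ξ m ≤ X ∧ B1 (u m)) →
    (∀ X' t' : ℝ, 0 < X' → X' ≤ Real.exp 2 * X → |t' - t| ≤ 4 →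
      ∑ m ∈ s, wt m * ‖Wsum (u m) X' t'‖ ^ 2 ≤ β * X' ^ (1 + 2 * δ)) →
    ∑ m ∈ s, wt m * (‖Wsum (u m) (ξ m) t‖ ^ 2 / ξ m ^ (1 + δ)) ≤ C * β * X ^ δ

/-- level zero, and small families at every level -/
def S_Tr : Prop :=
  ∀ (D : Type) (d : PD D) (Q : O) (i : ℕ), Q ≠ 0 → 36 ∣ Q → ∃ (C : ℝ) (A : ℕ), 0 < C ∧
    ∀ (δ K M η Y₁ Y₂ t₁ t₂ : ℝ) (x : D) (ν₁ ν₂ : O → ℂ) (s : Finset O), 0 < δ → δ ≤ 1 → 1 ≤ M →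
      1 ≤ η → d.cl i K x → IsNu Q ν₁ → IsNu Q ν₂ → 0 < Y₁ → 0 < Y₂ → NE Q M s →
      ∑ m ∈ s, ‖Lm ν₁ m Y₁ t₁ * Lm ν₂ m Y₂ t₂ * d.F x m‖ ^ 2 ≤
        C * ht t₁ t₂ ^ A * (Y₁ * Y₂ * d.L x) ^ (1 + δ) * (TT M η (d.L x) * M ^ 9)

/-- the maximal form -/
def S_MX : Prop := ∀ (D : Type) (d : PD D) (Q : O) (j i : ℕ), HH Q d j i → MX Q d j i

/-- one step -/
def S_AB : Prop :=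
  ∀ (D : Type) (d : PD D) (Q : O), Q ≠ 0 → 36 ∣ Q →
    (∀ j, STEP0 Q d → MX Q d j 0 → AB Q d (j + 1) 0) ∧
    ∀ j i, STEP1 Q d i → MX Q d j i → AB Q d j (i + 1)

/-- the centering -/
def S_C : Prop :=
  ∀ (D : Type) (d : PD D) (Q : O) (j i : ℕ), Q ≠ 0 → 36 ∣ Q → AB Q d j i → HG Q d gr j i

/-- two flips -/
def S_D : Prop :=
  ∀ (D : Type) (d : PD D) (Q : O) (j i : ℕ), Q ≠ 0 → 36 ∣ Q → HG Q d gr j i → HH Q d j i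

/-- the mean value theorem -/
def S_II (Q : O) {D : Type} (d : PD D) : Prop :=
  ∀ (i J : ℕ) (ε : ℝ), 0 < ε → ∃ (C : ℝ) (A : ℕ), 0 < C ∧
    ∀ (K M η Y₁ Y₂ t₁ t₂ : ℝ) (x : D) (ν₁ ν₂ : O → ℂ) (s : Finset O), 2 ≤ K → 1 ≤ M →
      M ≤ K ^ J → d.cl i K x → IsNu Q ν₁ → IsNu Q ν₂ → 0 < Y₁ → 0 < Y₂ → Adm M η Y₁ Y₂ →
      NE Q M s →
      ∑ m ∈ s, ‖Lm ν₁ m Y₁ t₁ * Lm ν₂ m Y₂ t₂ * d.F x m‖ ^ 2 ≤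
        C * K ^ 55 * ht t₁ t₂ ^ A * (1 + Y₁ * Y₂ * d.L x) ^ ε * (Y₁ * Y₂ * d.L x) * TT M η (d.L x)

lemma one_le_ht (t₁ t₂ : ℝ) : 1 ≤ ht t₁ t₂ := by
  have := abs_nonneg t₁; have := abs_nonneg t₂; unfold ht; linarith

lemma ht_pos (t₁ t₂ : ℝ) : 0 < ht t₁ t₂ := one_pos.trans_le (one_le_ht t₁ t₂)

lemma ht_comm (t₁ t₂ : ℝ) : ht t₁ t₂ = ht t₂ t₁ := by unfold ht; ring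

lemma le_ht_left (t₁ t₂ : ℝ) : 1 + |t₁| ≤ ht t₁ t₂ := by
  have := abs_nonneg t₂; unfold ht; linarith

lemma le_ht_right (t₁ t₂ : ℝ) : 1 + |t₂| ≤ ht t₁ t₂ := ht_comm t₂ t₁ ▸ le_ht_left t₂ t₁

lemma ht_le (t₁ t₂ : ℝ) : ht t₁ t₂ ≤ (1 + |t₁|) * (1 + |t₂|) := by
  have := mul_nonneg (abs_nonneg t₁) (abs_nonneg t₂); unfold ht; linarith

lemma TT_pos {M η P : ℝ} (hM : 0 < M) (hη : 0 ≤ η) (hP : 0 ≤ P) : 0 < TT M η P := by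
  unfold TT; positivity

lemma b1_L {Q : O} {ν : O → ℂ} (h : IsNu Q ν) (m : O) : B1 (uL (ph ν m)) := (mul1_ph h m).uL

end Pool.Agent.P.MP_323ce2_nt.QR
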