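import Pool.Agent.P.MP_323ce2_nt.QR.St

/-! One step of the descent without pieces. -/

namespace Pool.Agent.P.MP_323ce2_nt.QR

open Pool.Agent.P.MP_26a8c3_nt Pool.Agent.P.MP_26a8c3_nt.QO Pool.Agent.P.MP_26a8c3_nt.QA
open Pool.Agent.P.MP_323ce2_nt.QZ Pool.Agent.P.MP_323ce2_nt.QF
open Finset
open scoped Classical

namespace AB0P

variable {D : Type} {d : PD D}

lemma md_z {z : ℂ} {τ Y₁ Y₂ E : ℝ} (h : Md z τ Y₁ Y₂ E) : ‖z‖ ≤ 1 ∧ 1 ≤ τ := by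
  rcases h with ⟨rfl, rfl, -⟩ | ⟨rfl, h, -⟩
  · simp
  · simpa using h

lemma md_scale {z : ℂ} {τ Y₁ Y₂ E L : ℝ} (h : Md z τ Y₁ Y₂ E) (hL : 1 ≤ L) (h1 : 0 < Y₁)
    (h2 : 0 < Y₂) : 0 ≤ E ∧ ∃ E', Md z τ (L * Y₁) (L * Y₂) E' ∧ E' ≤ L ^ 2 * E := by
  have a1 : 1 + L * Y₁ ≤ L * (1 + Y₁) := by linarith
  have a2 : 1 + L * Y₂ ≤ L * (1 + Y₂) := by linarith
  rcases h with ⟨rfl, rfl, rfl⟩ | ⟨rfl, h, rfl⟩
  · refine ⟨by positivity, _, Or.inl ⟨rfl, rfl, rfl⟩, ?_⟩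
    refine (mul_le_mul a1 a2 (by positivity) (by positivity)).trans (le_of_eq ?_)
    ring
  · have a3 : 0 ≤ 1 + Y₁ + Y₂ * τ := by positivity
    refine ⟨a3, _, Or.inr ⟨rfl, h, rfl⟩, ?_⟩
    have a4 : L ≤ L ^ 2 := le_self_pow₀ hL (by norm_num)
    have a5 := mul_le_mul_of_nonneg_right a4 a3
    linarith

lemma VV_le {z : ℂ} {τ : ℝ} (hz : ‖z‖ ≤ 1) (hτ : 0 < τ) (ν₁ ν₂ : O → ℂ) (a b t₁ t₂ : ℝ) (m : O)
    (f : ℂ) : ‖VV ν₁ ν₂ z τ a b t₁ t₂ m * f‖ ^ 2 ≤ 2 * ‖Lm ν₁ m a t₁ * Lm ν₂ m b t₂ * f‖ ^ 2 +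
      2 * ‖Lm ν₁ m (a / τ) t₁ * Lm ν₂ m (b * τ) t₂ * f‖ ^ 2 := by
  have h1 : ‖(τ : ℂ) ^ (((t₁ - t₂ : ℝ) : ℂ) * Complex.I)‖ = 1 := by
    rw [Complex.norm_cpow_eq_rpow_re_of_pos hτ]
    simp
  have h2 : ‖VV ν₁ ν₂ z τ a b t₁ t₂ m * f‖ ≤ ‖Lm ν₁ m a t₁ * Lm ν₂ m b t₂ * f‖ +
      ‖Lm ν₁ m (a / τ) t₁ * Lm ν₂ m (b * τ) t₂ * f‖ := by
    rw [VV, sub_mul]
    refine (norm_sub_le _ _).trans (add_le_add_right ?_ _)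
    rw [mul_assoc (z * _), norm_mul, norm_mul z, h1, mul_one]
    exact mul_le_of_le_one_left (norm_nonneg _) hz
  have h3 := pow_le_pow_left₀ (norm_nonneg _) h2 2
  nlinarith [sq_nonneg (‖Lm ν₁ m a t₁ * Lm ν₂ m b t₂ * f‖ -
    ‖Lm ν₁ m (a / τ) t₁ * Lm ν₂ m (b * τ) t₂ * f‖)]

lemma L_one {K : ℝ} {x : D} (h : d.cl 0 K x) : d.L x = 1 := by
  have := d.len 0 K x h
  rw [pow_zero] at this
  exact le_antisymm this.2 this.1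

lemma TT_le {M y : ℝ} (hM : 1 ≤ M) (hy : M ≤ y) :
    TT y √M 1 * (1 + y / M) ^ 11 ≤ 2 ^ 12 * M * (y / M) ^ 12 := by
  have h0 : 0 < M := by linarith
  have h1 : 0 < y := by linarith
  have hu : 1 ≤ y / M := (one_le_div h0).2 hy
  have a1 : (y * √M) ^ (2 / 3 : ℝ) ≤ y := by
    have b1 : y * √M ≤ y ^ (3 / 2 : ℝ) := by
      rw [show (3 / 2 : ℝ) = 1 + 1 / 2 by norm_num, Real.rpow_add h1, Real.rpow_one,
        ← Real.sqrt_eq_rpow]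
      exact mul_le_mul_of_nonneg_left (Real.sqrt_le_sqrt hy) h1.le
    refine (Real.rpow_le_rpow (by positivity) b1 (by norm_num)).trans (le_of_eq ?_)
    rw [← Real.rpow_mul h1.le]
    norm_num
  have a2 : TT y √M 1 ≤ 2 * (M * (y / M)) := by
    rw [mul_div_cancel₀ _ h0.ne', TT]
    linarith
  have a3 : (1 + y / M) ^ 11 ≤ (2 * (y / M)) ^ 11 := pow_le_pow_left₀ (by positivity) (by linarith) _
  refine (mul_le_mul a2 a3 (by positivity) (by positivity)).trans (le_of_eq ?_)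
  ring

lemma rp_le {M y δ : ℝ} (hM : 1 ≤ M) (hy : M ≤ y) (h1 : δ ≤ 1) :
    y ^ (1 / 6 : ℝ) * y ^ δ ≤ M ^ (1 / 6 : ℝ) * M ^ δ * (y / M) ^ 12 := by
  have h2 : 0 < M := by linarith
  have h3 : 0 < y := by linarith
  have hu : 1 ≤ y / M := (one_le_div h2).2 hy
  have e : y ^ (1 / 6 + δ) = M ^ (1 / 6 + δ) * (y / M) ^ (1 / 6 + δ) := by
    rw [← Real.mul_rpow h2.le (by positivity), mul_div_cancel₀ _ h2.ne']
  rw [← Real.rpow_add h3, ← Real.rpow_add h2, e]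
  refine mul_le_mul_of_nonneg_left ?_ (by positivity)
  rw [← Real.rpow_natCast]
  exact Real.rpow_le_rpow_of_exponent_le hu (by push_cast; linarith)

/-- the exceptional terms -/
lemma exc (hC : S_Cnt) (hE : S_Cen) {Q : O} (h0 : Q ≠ 0) (h36 : 36 ∣ Q) {δ : ℝ} (hδ : 0 < δ)
    (hδ1 : δ ≤ 1) : ∃ (C : ℝ) (k : ℕ), 0 < C ∧ ∀ (ν₁ ν₂ : O → ℂ) (f : O → ℂ) (z : ℂ)
      (τ E Y₁ Y₂ t₁ t₂ y : ℝ) (s : Finset O) (ξ₁ ξ₂ : O → ℝ), IsNu Q ν₁ → IsNu Q ν₂ →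
      (∀ m, ‖f m‖ ≤ 1) → Md z τ Y₁ Y₂ E → 0 ≤ E → 1 ≤ y →
      (∀ m ∈ s, m ≠ 0 ∧ (N m : ℝ) ≤ y ∧ 0 < ξ₁ m ∧ ξ₁ m ≤ Y₁ ∧ 0 < ξ₂ m ∧ ξ₂ m ≤ Y₂) →
      ∑ m ∈ s.filter (EX Q), ‖VV ν₁ ν₂ z τ (ξ₁ m) (ξ₂ m) t₁ t₂ m * f m‖ ^ 2 /
        (ξ₁ m * ξ₂ m) ^ (1 + δ) ≤ C * E * (y ^ (1 / 6 : ℝ) * y ^ δ) * ht t₁ t₂ ^ k := by
  obtain ⟨C1, c1, H1⟩ := hC Q h0 h36
  obtain ⟨C2, k, c2, H2⟩ := hE Q h0 h36
  obtain ⟨C3, c3, H3⟩ := dv_le (ε := δ / 4) (by positivity)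
  refine ⟨C1 * C2 * C3 ^ 4, k, by positivity,
    fun ν₁ ν₂ f z τ E Y₁ Y₂ t₁ t₂ y s ξ₁ ξ₂ n1 n2 hf hM hE0 hy hs => ?_⟩
  have hh := ht_pos t₁ t₂
  have hy0 : 0 < y := by linarith
  have a1 := H1 y (s.filter (EX Q)) hy fun m hm =>
    ⟨(hs m (mem_filter.1 hm).1).1, (hs m (mem_filter.1 hm).1).2.1, (mem_filter.1 hm).2⟩
  have a2 : ∀ m ∈ s.filter (EX Q), ‖VV ν₁ ν₂ z τ (ξ₁ m) (ξ₂ m) t₁ t₂ m * f m‖ ^ 2 /
      (ξ₁ m * ξ₂ m) ^ (1 + δ) ≤ C2 * (C3 ^ 4 * y ^ δ) * ht t₁ t₂ ^ k * E := by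
    intro m hm
    obtain ⟨b1, b2, b3, b4, b5, b6⟩ := hs m (mem_filter.1 hm).1
    have b7 := H2 ν₁ ν₂ m z δ τ E Y₁ Y₂ _ _ t₁ t₂ n1 n2 b1 (mem_filter.1 hm).2 hδ hδ1 hM b3 b4 b5 b6
    have b8 : dv m ^ 4 ≤ C3 ^ 4 * y ^ δ := by
      have e : y ^ δ = (y ^ (δ / 4)) ^ 4 := by
        rw [← Real.rpow_natCast, ← Real.rpow_mul hy0.le]
        norm_num
      rw [e, ← mul_pow]
      refine pow_le_pow_left₀ (dv_nonneg m) ((H3 m b1).trans ?_) 4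
      exact mul_le_mul_of_nonneg_left (Real.rpow_le_rpow (by positivity) b2 (by positivity)) c3.le
    rw [div_le_iff₀ (by positivity)]
    refine le_trans ?_ (b7.trans ?_)
    · refine pow_le_pow_left₀ (norm_nonneg _) ?_ 2
      rw [norm_mul]
      exact mul_le_of_le_one_right (norm_nonneg _) (hf m)
    · gcongr
  refine (sum_le_card_nsmul _ _ _ a2).trans ?_
  rw [nsmul_eq_mul]
  refine (mul_le_mul_of_nonneg_right a1 (by positivity)).trans (le_of_eq ?_)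
  ring

lemma fin {K M T P Y E g C : ℝ} (hK : 2 ≤ K) (hM : K ^ 6 ≤ M) (hT : M ≤ T) (hP : 1 ≤ P)
    (hY : 0 ≤ Y) (hE : 0 ≤ E) (hg : 1 ≤ g) (hC : 0 ≤ C) :
    M + K ^ 6 * (Y + C * g * (K ^ 54 * P * (M / K ^ 6) + E * (M / K ^ 6) ^ (1 / 6 : ℝ))) ≤
      (1 + C) * K ^ 54 * g * (T * P + (Y + M ^ (1 / 6 : ℝ) * E)) := by
  have k0 : 0 < K := by linarith
  have k1 : 1 ≤ K := by linarith
  have k2 : 1 ≤ K ^ 6 := one_le_pow₀ k1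
  have k3 : K ^ 6 ≤ K ^ 54 := pow_le_pow_right₀ k1 (by norm_num)
  have m0 : 0 < M := by linarith
  have a1 : (M / K ^ 6) ^ (1 / 6 : ℝ) ≤ M ^ (1 / 6 : ℝ) :=
    Real.rpow_le_rpow (by positivity) (div_le_self m0.le k2) (by norm_num)
  have a2 : 0 ≤ M ^ (1 / 6 : ℝ) * E := by positivity
  have a3 : M ≤ T * P := hT.trans (le_mul_of_one_le_right (by linarith) hP)
  have a4 : M + K ^ 6 * Y ≤ K ^ 54 * g * (T * P + (Y + M ^ (1 / 6 : ℝ) * E)) := by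
    have b1 : K ^ 6 ≤ K ^ 54 * g := k3.trans (le_mul_of_one_le_right (by positivity) hg)
    have b2 : M + K ^ 6 * Y ≤ K ^ 6 * (T * P + (Y + M ^ (1 / 6 : ℝ) * E)) := by
      have := mul_le_mul k2 a3 m0.le (by positivity)
      have := mul_nonneg (by positivity : (0 : ℝ) ≤ K ^ 6) a2
      linarith
    exact b2.trans (mul_le_mul_of_nonneg_right b1 (by linarith))
  have a5 : K ^ 6 * (K ^ 54 * P * (M / K ^ 6) + E * (M / K ^ 6) ^ (1 / 6 : ℝ)) ≤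
      K ^ 54 * (T * P + (Y + M ^ (1 / 6 : ℝ) * E)) := by
    have b1 : K ^ 6 * (K ^ 54 * P * (M / K ^ 6)) = K ^ 54 * (M * P) := by
      field_simp
    have b2 : K ^ 54 * (M * P) ≤ K ^ 54 * (T * P) := by gcongr
    have b3 : K ^ 6 * (E * (M / K ^ 6) ^ (1 / 6 : ℝ)) ≤ K ^ 54 * (E * M ^ (1 / 6 : ℝ)) := by
      gcongr
    have b4 : 0 ≤ K ^ 54 * Y := mul_nonneg (pow_nonneg k0.le _) hY
    rw [mul_add (K ^ 6), b1]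
    generalize K ^ 54 = W at *
    linarith
  have a6 := mul_le_mul_of_nonneg_left a5 (mul_nonneg hC (by linarith : (0 : ℝ) ≤ g))
  linarith

end AB0P

open AB0P in
theorem pAB0 (hC : S_Cnt) (hE : S_Cen) (D : Type) (d : PD D) (Q : O) (h0 : Q ≠ 0) (h36 : 36 ∣ Q)
    (j : ℕ) : STEP0 Q d → MX Q d j 0 → AB Q d (j + 1) 0 := by
  rintro ⟨c0, hc0, HS⟩ ⟨c1, δ0, hc1, hδ0, hδ1, HM⟩
  refine ⟨c0 + (c1 + 1), δ0, by positivity, hδ0, hδ1, fun δ hδ hδ' => ?_⟩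
  have d1 : δ ≤ 1 := hδ'.trans hδ1
  obtain ⟨C1, A1, p1, HM⟩ := HM δ hδ hδ'
  obtain ⟨C2, k, p2, HE⟩ := exc hC hE h0 h36 hδ d1
  obtain ⟨C0, Lc, A', p0, hL, HS⟩ := HS δ (A1 + k) hδ d1
  refine ⟨C0 * (1 + (2 ^ 14 * C1 + C2) * Lc ^ 2), A', by positivity,
    fun K M η τ E Y₁ Y₂ t₁ t₂ z x ν₁ ν₂ s hK hM hx n1 n2 y1 y2 hMd hA _ hs => ?_⟩
  obtain ⟨hz, hτ⟩ := md_z hMd
  obtain ⟨hE0, E', hMd', hE'⟩ := md_scale hMd hL y1 y2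
  have k0 : 0 < K := by linarith
  have k1 : 1 ≤ K := by linarith
  have k2 : 1 ≤ K ^ 6 := one_le_pow₀ k1
  have m1 : 1 ≤ M := k2.trans hM
  have τ0 : 0 < τ := by linarith
  have l0 : 0 < Lc := by linarith
  obtain ⟨M₁, e1⟩ : ∃ M₁, M₁ = M / K ^ 6 := ⟨_, rfl⟩
  have m2 : 1 ≤ M₁ := e1 ▸ (one_le_div (by positivity)).2 hM
  have m3 : M₁ ≤ M := e1 ▸ div_le_self (by linarith) k2
  obtain ⟨G, e2⟩ : ∃ G, G = K * M * (1 + Y₁) * (1 + Y₂ * τ) := ⟨_, rfl⟩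
  have z1 : Y₂ ≤ Y₂ * τ := le_mul_of_one_le_right y2.le hτ
  have g0 : 1 ≤ (1 + Y₁) * (1 + Y₂ * τ) := one_le_mul_of_one_le_of_one_le (by linarith) (by linarith)
  have g1 : 1 ≤ K * M := one_le_mul_of_one_le_of_one_le k1 m1
  have g2 : K * M ≤ G := by
    rw [e2, mul_assoc (K * M)]
    exact le_mul_of_one_le_right (by linarith) g0
  have g3 : Y₁ * Y₂ ≤ G := by
    rw [e2, mul_assoc (K * M)]
    exact (mul_le_mul (by linarith) (by linarith) y2.le (by linarith)).trans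
      (le_mul_of_one_le_left (by linarith) g1)
  have g4 : 1 ≤ G := g1.trans g2
  have g5 : M₁ ≤ K * M := m3.trans (le_mul_of_one_le_left (by linarith) k1)
  obtain ⟨g, e3⟩ : ∃ g, g = G ^ ((c1 + 1) * δ) := ⟨_, rfl⟩
  have g6 : 1 ≤ g := e3 ▸ Real.one_le_rpow g4 (by positivity)
  have g7 : (K * M₁) ^ (c1 * δ) * (Lc ^ 2 * (Y₁ * Y₂)) ^ δ ≤ Lc ^ 2 * g := by
    have a1 : (K * M₁) ^ (c1 * δ) ≤ G ^ (c1 * δ) := Real.rpow_le_rpow (by positivity)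
      ((mul_le_mul_of_nonneg_left m3 k0.le).trans g2) (by positivity)
    have a2 : (Lc ^ 2) ^ δ ≤ Lc ^ 2 := by
      simpa using Real.rpow_le_rpow_of_exponent_le (one_le_pow₀ hL : 1 ≤ Lc ^ 2) d1
    have a3 : (Y₁ * Y₂) ^ δ ≤ G ^ δ := Real.rpow_le_rpow (by positivity) g3 hδ.le
    rw [Real.mul_rpow (x := Lc ^ 2) (by positivity) (by positivity), e3, add_mul, one_mul,
      Real.rpow_add (by linarith), mul_left_comm]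
    gcongr
  have g8 : M₁ ^ δ ≤ g := by
    rw [e3]
    exact (Real.rpow_le_rpow (by linarith) (g5.trans g2) hδ.le).trans
      (Real.rpow_le_rpow_of_exponent_le g4 (by nlinarith))
  obtain ⟨P, e4⟩ : ∃ P, P = (1 + M / K ^ (6 * (j + 1))) ^ 9 := ⟨_, rfl⟩
  have q1 : 1 ≤ P := e4 ▸ one_le_pow₀ (le_add_of_nonneg_right (by positivity))
  have q2 : (1 + M₁ / K ^ (6 * j)) ^ 9 = P := by
    rw [e4, e1, div_div, ← pow_add, mul_add, mul_one, add_comm 6]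
  have hCH : CH Q d (d.cl 0 K) z τ (Lc * Y₁) (Lc * Y₂) M₁ δ (fun y => (2 ^ 14 * C1 + C2) * Lc ^ 2 *
      g * (K ^ 54 * P * M₁ + E * M₁ ^ (1 / 6 : ℝ)) * (y / M₁) ^ 12) (A1 + k) := by
    intro μ₁ μ₂ x' u₁ u₂ y s' ξ₁ ξ₂ n3 n4 hx' hy hs'
    have hh := one_le_ht u₁ u₂
    have y0 : 1 ≤ y := m2.trans hy
    have hu : 0 ≤ (y / M₁) ^ 12 := by positivity
    have hNE : NE Q y (s'.filter fun m => ¬ EX Q m) := fun m hm =>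
      ⟨(hs' m (mem_filter.1 hm).1).1, (hs' m (mem_filter.1 hm).1).2.1, (mem_filter.1 hm).2⟩
    have hAd : ∀ a b, Adm M₁ √M₁ a b := fun a b =>
      ⟨Real.one_le_sqrt.2 m2, Or.inr (Or.inr (Real.sq_sqrt (by linarith)).ge)⟩
    have key : ∀ (a b : ℝ) (ζ₁ ζ₂ : O → ℝ), 0 < a → 0 < b → a * b = Lc ^ 2 * (Y₁ * Y₂) →
        (∀ m ∈ s'.filter fun m => ¬ EX Q m, 0 < ζ₁ m ∧ ζ₁ m ≤ a ∧ 0 < ζ₂ m ∧ ζ₂ m ≤ b) →
        ∑ m ∈ s'.filter fun m => ¬ EX Q m, ‖Lm μ₁ m (ζ₁ m) u₁ * Lm μ₂ m (ζ₂ m) u₂ * d.F x' m‖ ^ 2 /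
          (ζ₁ m * ζ₂ m) ^ (1 + δ) ≤
        2 ^ 12 * C1 * (Lc ^ 2 * g * (K ^ 54 * P * M₁) * (y / M₁) ^ 12 * ht u₁ u₂ ^ (A1 + k)) := by
      intro a b ζ₁ ζ₂ ha hb hab hζ
      have a1 := HM K M₁ y √M₁ a b u₁ u₂ x' μ₁ μ₂ _ ζ₁ ζ₂ hK m2 y0 hx' n3 n4 ha hb (hAd a b) hNE hζ
      rw [L_one hx', Real.one_rpow, mul_one, hab, q2, mul_assoc (C1 * K ^ 54)] at a1
      refine a1.trans ?_
      have a2 : ht u₁ u₂ ^ A1 ≤ ht u₁ u₂ ^ (A1 + k) := pow_le_pow_right₀ hh (by omega)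
      have a3 := TT_le m2 hy
      have a4 := (TT_pos (M := y) (η := √M₁) (P := 1) (by linarith) (by positivity) zero_le_one).le
      calc _ ≤ C1 * K ^ 54 * (Lc ^ 2 * g) * P * (2 ^ 12 * M₁ * (y / M₁) ^ 12) *
            ht u₁ u₂ ^ (A1 + k) := by gcongr
        _ = _ := by ring
    have b1 := key (Lc * Y₁) (Lc * Y₂) ξ₁ ξ₂ (by positivity) (by positivity) (by ring)
      fun m hm => (hs' m (mem_filter.1 hm).1).2.2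
    have b2 := key (Lc * Y₁ / τ) (Lc * Y₂ * τ) (fun m => ξ₁ m / τ) (fun m => ξ₂ m * τ)
      (by positivity) (by positivity) (by field_simp) fun m hm => by
        obtain ⟨-, -, c1, c2, c3, c4⟩ := hs' m (mem_filter.1 hm).1
        exact ⟨by positivity, by gcongr, by positivity, by gcongr⟩
    have b3 : ∑ m ∈ s'.filter fun m => ¬ EX Q m,
        ‖VV μ₁ μ₂ z τ (ξ₁ m) (ξ₂ m) u₁ u₂ m * d.F x' m‖ ^ 2 / (ξ₁ m * ξ₂ m) ^ (1 + δ) ≤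
        2 ^ 14 * C1 * (Lc ^ 2 * g * (K ^ 54 * P * M₁) * (y / M₁) ^ 12 * ht u₁ u₂ ^ (A1 + k)) := by
      refine le_trans (sum_le_sum (g := fun m =>
        2 * (‖Lm μ₁ m (ξ₁ m) u₁ * Lm μ₂ m (ξ₂ m) u₂ * d.F x' m‖ ^ 2 / (ξ₁ m * ξ₂ m) ^ (1 + δ)) +
        2 * (‖Lm μ₁ m (ξ₁ m / τ) u₁ * Lm μ₂ m (ξ₂ m * τ) u₂ * d.F x' m‖ ^ 2 /
          (ξ₁ m / τ * (ξ₂ m * τ)) ^ (1 + δ))) fun m hm => ?_) ?_
      · obtain ⟨-, -, c1, -, c3, -⟩ := hs' m (mem_filter.1 hm).1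
        have e : ξ₁ m / τ * (ξ₂ m * τ) = ξ₁ m * ξ₂ m := by field_simp
        rw [e, ← mul_div_assoc, ← mul_div_assoc, ← add_div]
        exact div_le_div_of_nonneg_right (VV_le hz τ0 _ _ _ _ _ _ _ _) (by positivity)
      · rw [sum_add_distrib, ← mul_sum, ← mul_sum]
        linarith
    have b4 : ∑ m ∈ s'.filter (EX Q),
        ‖VV μ₁ μ₂ z τ (ξ₁ m) (ξ₂ m) u₁ u₂ m * d.F x' m‖ ^ 2 / (ξ₁ m * ξ₂ m) ^ (1 + δ) ≤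
        C2 * (Lc ^ 2 * g * (E * M₁ ^ (1 / 6 : ℝ)) * (y / M₁) ^ 12 * ht u₁ u₂ ^ (A1 + k)) := by
      have hE1 := (md_scale hMd' le_rfl (by positivity) (by positivity)).1
      refine (HE μ₁ μ₂ (d.F x') z τ E' _ _ u₁ u₂ y s' ξ₁ ξ₂ n3 n4
        (fun m => by simpa [L_one hx'] using d.bd 0 K x' m hx') hMd' hE1 y0 hs').trans ?_
      have a2 : ht u₁ u₂ ^ k ≤ ht u₁ u₂ ^ (A1 + k) := pow_le_pow_right₀ hh (by omega)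
      have a3 : y ^ (1 / 6 : ℝ) * y ^ δ ≤ M₁ ^ (1 / 6 : ℝ) * g * (y / M₁) ^ 12 :=
        (rp_le m2 hy d1).trans (by gcongr)
      calc _ ≤ C2 * (Lc ^ 2 * E) * (M₁ ^ (1 / 6 : ℝ) * g * (y / M₁) ^ 12) *
            ht u₁ u₂ ^ (A1 + k) := by gcongr
        _ = _ := by ring
    rw [← sum_filter_add_sum_filter_not s' (EX Q), L_one hx', Real.one_rpow, mul_one]
    have b5 : 0 ≤ 2 ^ 14 * C1 *
      (Lc ^ 2 * g * (E * M₁ ^ (1 / 6 : ℝ)) * (y / M₁) ^ 12 * ht u₁ u₂ ^ (A1 + k)) := by positivity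
    have b6 : 0 ≤ C2 *
      (Lc ^ 2 * g * (K ^ 54 * P * M₁) * (y / M₁) ^ 12 * ht u₁ u₂ ^ (A1 + k)) := by positivity
    linarith
  subst e1
  have fin1 := HS K M x ν₁ ν₂ z τ Y₁ Y₂ t₁ t₂ _ s hK hM hx n1 n2 hz hτ y1 y2 (by positivity) hs hCH
  have hT : M ≤ TT M η 1 := by
    have := hA.1
    exact le_add_of_nonneg_right (by positivity)
  have fin2 := fin (Y := Y₁ * Y₂) (C := (2 ^ 14 * C1 + C2) * Lc ^ 2) hK hM hT q1 (by positivity)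
    hE0 g6 (by positivity)
  have hh := ht_pos t₁ t₂
  rw [← e2] at fin1
  rw [L_one hx, mul_one, one_mul, ← e2, ← e4, add_mul c0, Real.rpow_add (by linarith), ← e3]
  refine (fin1.trans (mul_le_mul_of_nonneg_left fin2 (by positivity))).trans (le_of_eq ?_)
  ring

end Pool.Agent.P.MP_323ce2_nt.QR
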