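import Pool.Agent.P.MP_323ce2_nt.QR.AB0

/-! One step of the descent with the removal of a piece. -/

namespace Pool.Agent.P.MP_323ce2_nt.QR

open Pool.Agent.P.MP_26a8c3_nt Pool.Agent.P.MP_26a8c3_nt.QO Pool.Agent.P.MP_26a8c3_nt.QA
open Pool.Agent.P.MP_323ce2_nt.QZ Pool.Agent.P.MP_323ce2_nt.QF
open Finset
open scoped Classical

namespace AB1P

lemma adm_scale {M η a b L : ℝ} (h : Adm M η a b) (hL : 1 ≤ L) :
    Adm M (L * η) (L * a) (L * b) := by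
  obtain ⟨h1, h2⟩ := h
  have l0 : 0 ≤ L := by linarith
  refine ⟨one_le_mul_of_one_le_of_one_le hL h1, ?_⟩
  rcases h2 with h | h | h
  · exact Or.inl (mul_le_mul_of_nonneg_left h l0)
  · exact Or.inr (Or.inl (mul_le_mul_of_nonneg_left h l0))
  · exact Or.inr (Or.inr (h.trans (pow_le_pow_left₀ (by linarith)
      (le_mul_of_one_le_left (by linarith) hL) 2)))

lemma TT_le {y η L p q : ℝ} (hy : 0 < y) (hη : 0 ≤ η) (hL : 1 ≤ L) (hp : 0 ≤ p) (hq : p ≤ q) :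
    TT y (L * η) p ≤ L * (y + q * η ^ (2 / 3 : ℝ) * y ^ (2 / 3 : ℝ)) := by
  have l0 : 0 ≤ L := by linarith
  have a1 : L ^ (2 / 3 : ℝ) ≤ L := by
    simpa using Real.rpow_le_rpow_of_exponent_le hL (show (2 / 3 : ℝ) ≤ 1 by norm_num)
  have a2 : y ≤ L * y := le_mul_of_one_le_left hy.le hL
  have a3 : p * (y ^ (2 / 3 : ℝ) * (L ^ (2 / 3 : ℝ) * η ^ (2 / 3 : ℝ))) ≤
      q * (y ^ (2 / 3 : ℝ) * (L * η ^ (2 / 3 : ℝ))) := by
    have := hp.trans hq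
    gcongr
  rw [TT, Real.mul_rpow hy.le (by positivity), Real.mul_rpow l0 hη]
  linarith

lemma rp_le {M y δ : ℝ} (hM : 0 < M) (hy : 0 < y) (h0 : 0 < δ) (h1 : δ ≤ 1) :
    y ^ (1 / 6 : ℝ) * y ^ δ ≤ M ^ (1 / 6 : ℝ) * M ^ δ * (1 + y / M) ^ 12 := by
  have hu : 1 ≤ 1 + y / M := le_add_of_nonneg_right (by positivity)
  have e : y ≤ M * (1 + y / M) := by
    rw [mul_add, mul_div_cancel₀ _ hM.ne']
    linarith
  rw [← Real.rpow_add hy, ← Real.rpow_add hM]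
  refine (Real.rpow_le_rpow hy.le e (by positivity)).trans ?_
  rw [Real.mul_rpow hM.le (by positivity)]
  refine mul_le_mul_of_nonneg_left ?_ (by positivity)
  rw [← Real.rpow_natCast]
  exact Real.rpow_le_rpow_of_exponent_le hu (by push_cast; linarith)

lemma fin {K M T P Y E g C₁ C₂ L : ℝ} (hK : 2 ≤ K) (hM : 0 < M) (hT : M ≤ T) (hP : 1 ≤ P)
    (hY : 0 ≤ Y) (hE : 0 ≤ E) (hg : 1 ≤ g) (h1 : 0 ≤ C₁) (h2 : 0 ≤ C₂) (hL : 0 ≤ L) :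
    M + K ^ 6 * (Y * L + C₂ * g * (E * L)) + C₁ * g * (K ^ 54 * P) * T ≤
      (1 + C₁ + C₂) * (K ^ 54 * g * (T * P + L * (Y + E))) := by
  have k1 : 1 ≤ K := by linarith
  have k2 : 1 ≤ K ^ 6 := one_le_pow₀ k1
  have k3 : K ^ 6 ≤ K ^ 54 := pow_le_pow_right₀ k1 (by norm_num)
  generalize K ^ 54 = W at *
  generalize K ^ 6 = V at *
  have t0 : 0 ≤ T := by linarith
  have w0 : 0 ≤ W := by linarith
  have g0 : 0 ≤ g := by linarith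
  have a0 : W ≤ W * g := le_mul_of_one_le_right w0 hg
  have a1 : M ≤ W * g * (T * P) := (hT.trans (le_mul_of_one_le_right t0 hP)).trans
    (le_mul_of_one_le_left (by positivity) (by linarith))
  have a2 : V * (Y * L) ≤ W * g * (Y * L) := mul_le_mul_of_nonneg_right (by linarith) (by positivity)
  have a3 : C₂ * g * (E * L) * V ≤ C₂ * g * (E * L) * W :=
    mul_le_mul_of_nonneg_left k3 (by positivity)
  have a4 : 0 ≤ W * g * (E * L) := by positivity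
  have a5 : 0 ≤ C₁ * (W * g * (L * (Y + E))) := by positivity
  have a6 : 0 ≤ C₂ * (W * g * (T * P + L * Y)) := by positivity
  linarith

end AB1P

open AB0P AB1P in
theorem pAB1 (hC : S_Cnt) (hE : S_Cen) (D : Type) (d : PD D) (Q : O) (h0 : Q ≠ 0) (h36 : 36 ∣ Q)
    (j i : ℕ) : STEP1 Q d i → MX Q d j i → AB Q d j (i + 1) := by
  rintro ⟨c0, hc0, HS⟩ ⟨c1, δ0, hc1, hδ0, hδ1, HM⟩
  refine ⟨c0 + (c1 + 1), δ0, by positivity, hδ0, hδ1, fun δ hδ hδ' => ?_⟩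
  have d1 : δ ≤ 1 := hδ'.trans hδ1
  obtain ⟨C1, A1, p1, HM⟩ := HM δ hδ hδ'
  obtain ⟨C2, k, p2, HE⟩ := exc hC hE h0 h36 hδ d1
  obtain ⟨C0, Lc, A', p0, hL, HS⟩ := HS δ (A1 + k) hδ d1
  refine ⟨C0 * (1 + 4 * C1 * Lc ^ 3 + (16 ^ i) ^ 2 * C2 * Lc ^ 2), A', by positivity,
    fun K M η τ E Y₁ Y₂ t₁ t₂ z x ν₁ ν₂ s hK hM hx n1 n2 y1 y2 hMd hA hB hs => ?_⟩
  obtain ⟨R, r1, r2, HS⟩ := HS K M x hK hM hx
  obtain ⟨hz, hτ⟩ := md_z hMd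
  obtain ⟨hE0, E', hMd', hE'⟩ := md_scale hMd hL y1 y2
  have k0 : 0 < K := by linarith
  have k1 : 1 ≤ K := by linarith
  have r0 : 0 < R := by linarith
  have m1 : 1 ≤ M := (one_le_pow₀ k1).trans hM
  have m0 : 0 < M := by linarith
  have τ0 : 0 < τ := by linarith
  have l0 : 0 < Lc := by linarith
  have η0 : 0 < η := one_pos.trans_le hA.1
  have x1 := (d.len _ K x hx).1
  have x0 : 0 < d.L x := by linarith
  have m2 : 1 ≤ M / R ^ 6 :=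
    (one_le_div (by positivity)).2 ((pow_le_pow_left₀ r0.le r2 6).trans hM)
  obtain ⟨G, e2⟩ : ∃ G, G = K * M * (1 + Y₁) * (1 + Y₂ * τ) := ⟨_, rfl⟩
  have z1 : Y₂ ≤ Y₂ * τ := le_mul_of_one_le_right y2.le hτ
  have g0 : 1 ≤ (1 + Y₁) * (1 + Y₂ * τ) := one_le_mul_of_one_le_of_one_le (by linarith) (by linarith)
  have g1 : 1 ≤ K * M := one_le_mul_of_one_le_of_one_le k1 m1
  have g2 : K * M ≤ G := by
    rw [e2, mul_assoc (K * M)]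
    exact le_mul_of_one_le_right (by linarith) g0
  have g3 : Y₁ * Y₂ ≤ G := by
    rw [e2, mul_assoc (K * M)]
    exact (mul_le_mul (by linarith) (by linarith) y2.le (by linarith)).trans
      (le_mul_of_one_le_left (by linarith) g1)
  have g4 : 1 ≤ G := g1.trans g2
  have g5 : M ≤ K * M := le_mul_of_one_le_left m0.le k1
  obtain ⟨g, e3⟩ : ∃ g, g = G ^ ((c1 + 1) * δ) := ⟨_, rfl⟩
  have g6 : 1 ≤ g := e3 ▸ Real.one_le_rpow g4 (by positivity)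
  have g9 : 0 < g := by linarith
  have g7 : (K * M) ^ (c1 * δ) * (Lc ^ 2 * (Y₁ * Y₂)) ^ δ ≤ Lc ^ 2 * g := by
    have a1 : (K * M) ^ (c1 * δ) ≤ G ^ (c1 * δ) :=
      Real.rpow_le_rpow (by positivity) g2 (by positivity)
    have a2 : (Lc ^ 2) ^ δ ≤ Lc ^ 2 := by
      simpa using Real.rpow_le_rpow_of_exponent_le (one_le_pow₀ hL : 1 ≤ Lc ^ 2) d1
    have a3 : (Y₁ * Y₂) ^ δ ≤ G ^ δ := Real.rpow_le_rpow (by positivity) g3 hδ.le
    rw [Real.mul_rpow (x := Lc ^ 2) (by positivity) (by positivity), e3, add_mul, one_mul,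
      Real.rpow_add (by linarith), mul_left_comm]
    gcongr
  have g8 : M ^ δ ≤ g := by
    rw [e3]
    exact (Real.rpow_le_rpow m0.le (g5.trans g2) hδ.le).trans
      (Real.rpow_le_rpow_of_exponent_le g4 (by nlinarith))
  obtain ⟨P, e4⟩ : ∃ P, P = (1 + M / K ^ (6 * j)) ^ 9 := ⟨_, rfl⟩
  have q1 : 1 ≤ P := e4 ▸ one_le_pow₀ (le_add_of_nonneg_right (by positivity))
  have q0 : 0 < P := by linarith
  have hCH : CH Q d (fun x' => d.cl i K x' ∧ d.L x' * R ≤ d.L x) z τ (Lc * Y₁) (Lc * Y₂)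
      (M / R ^ 6) δ (fun y => (4 * C1 * Lc ^ 3 * g * (K ^ 54 * P) * y +
        4 * C1 * Lc ^ 3 * g * (K ^ 54 * P) * (d.L x / R * η ^ (2 / 3 : ℝ)) * y ^ (2 / 3 : ℝ) +
        (16 ^ i) ^ 2 * C2 * Lc ^ 2 * g * (M ^ (1 / 6 : ℝ) * E * d.L x)) * (1 + y / M) ^ 12)
      (A1 + k) := by
    rintro μ₁ μ₂ x' u₁ u₂ y s' ξ₁ ξ₂ n3 n4 ⟨hx', hR⟩ hy hs'
    have hh := one_le_ht u₁ u₂
    have y0 : 1 ≤ y := m2.trans hy
    have y3 : 0 < y := by linarith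
    have v1 := (d.len _ K x' hx').1
    have v0 : 0 < d.L x' := by linarith
    have hu : 1 ≤ 1 + y / M := le_add_of_nonneg_right (by positivity)
    have hNE : NE Q y (s'.filter fun m => ¬ EX Q m) := fun m hm =>
      ⟨(hs' m (mem_filter.1 hm).1).1, (hs' m (mem_filter.1 hm).1).2.1, (mem_filter.1 hm).2⟩
    obtain ⟨T, e5⟩ : ∃ T, T = y + d.L x / R * η ^ (2 / 3 : ℝ) * y ^ (2 / 3 : ℝ) := ⟨_, rfl⟩
    have t0 : 0 ≤ T := by rw [e5]; positivity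
    have key : ∀ (a b : ℝ) (ζ₁ ζ₂ : O → ℝ), 0 < a → 0 < b → a * b = Lc ^ 2 * (Y₁ * Y₂) →
        Adm M (Lc * η) a b →
        (∀ m ∈ s'.filter fun m => ¬ EX Q m, 0 < ζ₁ m ∧ ζ₁ m ≤ a ∧ 0 < ζ₂ m ∧ ζ₂ m ≤ b) →
        ∑ m ∈ s'.filter fun m => ¬ EX Q m, ‖Lm μ₁ m (ζ₁ m) u₁ * Lm μ₂ m (ζ₂ m) u₂ * d.F x' m‖ ^ 2 /
          (ζ₁ m * ζ₂ m) ^ (1 + δ) ≤ C1 * Lc ^ 3 * g * (K ^ 54 * P) * T * (1 + y / M) ^ 12 *
          d.L x' ^ (1 + δ) * ht u₁ u₂ ^ (A1 + k) := by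
      intro a b ζ₁ ζ₂ ha hb hab hAd hζ
      have a1 := HM K M y (Lc * η) a b u₁ u₂ x' μ₁ μ₂ _ ζ₁ ζ₂ hK m1 y0 hx' n3 n4 ha hb hAd hNE hζ
      rw [hab, ← e4, mul_assoc (C1 * K ^ 54)] at a1
      refine a1.trans ?_
      have a2 : ht u₁ u₂ ^ A1 ≤ ht u₁ u₂ ^ (A1 + k) := pow_le_pow_right₀ hh (by omega)
      have a3 := e5 ▸ AB1P.TT_le y3 η0.le hL v0.le ((le_div_iff₀ r0).2 hR)
      have a4 := (TT_pos (M := y) (η := Lc * η) (P := d.L x') y3 (by positivity) v0.le).le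
      have a5 : (1 + y / M) ^ 11 ≤ (1 + y / M) ^ 12 := pow_le_pow_right₀ hu (by norm_num)
      calc _ ≤ C1 * K ^ 54 * (Lc ^ 2 * g) * P * (Lc * T * (1 + y / M) ^ 12) * d.L x' ^ (1 + δ) *
            ht u₁ u₂ ^ (A1 + k) := by gcongr
        _ = _ := by ring
    have b1 := key (Lc * Y₁) (Lc * Y₂) ξ₁ ξ₂ (by positivity) (by positivity) (by ring)
      (adm_scale hA hL) fun m hm => (hs' m (mem_filter.1 hm).1).2.2
    have b2 := key (Lc * (Y₁ / τ)) (Lc * (Y₂ * τ)) (fun m => ξ₁ m / τ) (fun m => ξ₂ m * τ)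
      (by positivity) (by positivity) (by field_simp) (adm_scale hB hL) fun m hm => by
        obtain ⟨-, -, c1, c2, c3, c4⟩ := hs' m (mem_filter.1 hm).1
        rw [← mul_div_assoc, ← mul_assoc]
        exact ⟨by positivity, by gcongr, by positivity, by gcongr⟩
    have b3 : ∑ m ∈ s'.filter fun m => ¬ EX Q m,
        ‖VV μ₁ μ₂ z τ (ξ₁ m) (ξ₂ m) u₁ u₂ m * d.F x' m‖ ^ 2 / (ξ₁ m * ξ₂ m) ^ (1 + δ) ≤
        4 * (C1 * Lc ^ 3 * g * (K ^ 54 * P) * T * (1 + y / M) ^ 12 *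
          d.L x' ^ (1 + δ) * ht u₁ u₂ ^ (A1 + k)) := by
      refine le_trans (sum_le_sum (g := fun m =>
        2 * (‖Lm μ₁ m (ξ₁ m) u₁ * Lm μ₂ m (ξ₂ m) u₂ * d.F x' m‖ ^ 2 / (ξ₁ m * ξ₂ m) ^ (1 + δ)) +
        2 * (‖Lm μ₁ m (ξ₁ m / τ) u₁ * Lm μ₂ m (ξ₂ m * τ) u₂ * d.F x' m‖ ^ 2 /
          (ξ₁ m / τ * (ξ₂ m * τ)) ^ (1 + δ))) fun m hm => ?_) ?_
      · obtain ⟨-, -, c1, -, c3, -⟩ := hs' m (mem_filter.1 hm).1
        have e : ξ₁ m / τ * (ξ₂ m * τ) = ξ₁ m * ξ₂ m := by field_simp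
        rw [e, ← mul_div_assoc, ← mul_div_assoc, ← add_div]
        exact div_le_div_of_nonneg_right (VV_le hz τ0 _ _ _ _ _ _ _ _) (by positivity)
      · rw [sum_add_distrib, ← mul_sum, ← mul_sum]
        linarith
    have b4 : ∑ m ∈ s'.filter (EX Q),
        ‖VV μ₁ μ₂ z τ (ξ₁ m) (ξ₂ m) u₁ u₂ m * d.F x' m‖ ^ 2 / (ξ₁ m * ξ₂ m) ^ (1 + δ) ≤
        (16 ^ i) ^ 2 * C2 * Lc ^ 2 * g * (M ^ (1 / 6 : ℝ) * E * d.L x) * (1 + y / M) ^ 12 *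
          d.L x' ^ (1 + δ) * ht u₁ u₂ ^ (A1 + k) := by
      have hE1 := (md_scale hMd' le_rfl (by positivity) (by positivity)).1
      obtain ⟨w, e6⟩ : ∃ w : ℝ, w = 16 ^ i * d.L x' := ⟨_, rfl⟩
      have w0 : 0 < w := by rw [e6]; positivity
      have w1 : ‖(w : ℂ)‖ = w := by rw [Complex.norm_real, Real.norm_of_nonneg w0.le]
      have a1 := HE μ₁ μ₂ (fun m => d.F x' m / w) z τ E' _ _ u₁ u₂ y s' ξ₁ ξ₂ n3 n4
        (fun m => by rw [norm_div, w1, div_le_one w0, e6]; exact d.bd i K x' m hx') hMd' hE1 y0 hs'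
      have a0 : ∀ m, ‖VV μ₁ μ₂ z τ (ξ₁ m) (ξ₂ m) u₁ u₂ m * d.F x' m‖ ^ 2 / (ξ₁ m * ξ₂ m) ^ (1 + δ) =
          w ^ 2 * (‖VV μ₁ μ₂ z τ (ξ₁ m) (ξ₂ m) u₁ u₂ m * (d.F x' m / w)‖ ^ 2 /
            (ξ₁ m * ξ₂ m) ^ (1 + δ)) := fun m => by
        rw [← mul_div_assoc _ (d.F x' m), norm_div, w1, div_pow, ← mul_div_assoc,
          mul_div_cancel₀ _ (by positivity)]
      rw [sum_congr rfl fun m _ => a0 m, ← mul_sum]
      refine (mul_le_mul_of_nonneg_left a1 (by positivity)).trans ?_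
      have a2 : ht u₁ u₂ ^ k ≤ ht u₁ u₂ ^ (A1 + k) := pow_le_pow_right₀ hh (by omega)
      have a3 : y ^ (1 / 6 : ℝ) * y ^ δ ≤ M ^ (1 / 6 : ℝ) * g * (1 + y / M) ^ 12 :=
        (AB1P.rp_le m0 y3 hδ d1).trans (by gcongr)
      have a4 : w ^ 2 ≤ (16 ^ i) ^ 2 * (d.L x * d.L x' ^ (1 + δ)) := by
        have c1 : d.L x' ≤ d.L x := (le_mul_of_one_le_right v0.le r1).trans hR
        have c2 : d.L x' ≤ d.L x' ^ (1 + δ) := by
          simpa using Real.rpow_le_rpow_of_exponent_le v1 (show (1 : ℝ) ≤ 1 + δ by linarith)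
        rw [e6, mul_pow, sq (d.L x')]
        gcongr
      calc _ ≤ (16 ^ i) ^ 2 * (d.L x * d.L x' ^ (1 + δ)) * (C2 * (Lc ^ 2 * E) *
            (M ^ (1 / 6 : ℝ) * g * (1 + y / M) ^ 12) * ht u₁ u₂ ^ (A1 + k)) := by gcongr
        _ = _ := by ring
    rw [← sum_filter_add_sum_filter_not s' (EX Q)]
    refine (add_le_add b4 b3).trans (le_of_eq ?_)
    rw [e5]
    ring
  have fin1 := HS ν₁ ν₂ z τ Y₁ Y₂ t₁ t₂ _ _ _ s n1 n2 hz hτ y1 y2 (by positivity) (by positivity)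
    (by positivity) hs hCH
  have hT : M ≤ TT M η (d.L x) := le_add_of_nonneg_right (by positivity)
  have fin2 := AB1P.fin (Y := Y₁ * Y₂) (E := M ^ (1 / 6 : ℝ) * E) (C₁ := 4 * C1 * Lc ^ 3)
    (C₂ := (16 ^ i) ^ 2 * C2 * Lc ^ 2) hK m0 hT q1 (by positivity) (by positivity) g6
    (by positivity) (by positivity) x0.le
  have e7 : ∀ b : ℝ, b * M + R * (b * (d.L x / R * η ^ (2 / 3 : ℝ))) * M ^ (2 / 3 : ℝ) =
      b * TT M η (d.L x) := fun b => by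
    rw [TT, Real.mul_rpow m0.le η0.le]
    field_simp
  have hh := ht_pos t₁ t₂
  rw [← e2, add_assoc (M + _), e7] at fin1
  rw [← e2, ← e4, add_mul c0, Real.rpow_add (by linarith), ← e3]
  refine (fin1.trans (mul_le_mul_of_nonneg_left fin2 (by positivity))).trans (le_of_eq ?_)
  ring

end Pool.Agent.P.MP_323ce2_nt.QR
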