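import Pool.Agent.P.MP_323ce2_nt.QR.St

/-! The centering: from the output of one step to the mean value bound with a growth factor. -/

namespace Pool.Agent.P.MP_323ce2_nt.QR

open Pool.Agent.P.MP_26a8c3_nt Pool.Agent.P.MP_26a8c3_nt.QO Pool.Agent.P.MP_323ce2_nt.QF

namespace CC

lemma loss {K M G w e : ℝ} (hK : 1 ≤ K) (hM : 1 ≤ M) (hw : 1 ≤ w) (hG0 : 0 ≤ G)
    (hG : G ≤ M ^ 2 * w) (he : 0 ≤ e) (he1 : e ≤ 1) : (K * M * G) ^ e ≤ (K * M) ^ (3 * e) * w := by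
  have hKM : 0 ≤ K * M := by positivity
  have h1 : M ≤ K * M := le_mul_of_one_le_left (by linarith) hK
  calc _ ≤ ((K * M) ^ (3 : ℝ) * w) ^ e := by
        refine Real.rpow_le_rpow (by positivity) ?_ he
        rw [show (3 : ℝ) = (3 : ℕ) by norm_num, Real.rpow_natCast]
        calc K * M * G ≤ K * M * ((K * M) ^ 2 * w) :=
              mul_le_mul_of_nonneg_left (hG.trans (by gcongr)) hKM
          _ = _ := by ring
    _ = (K * M) ^ (3 * e) * w ^ e := by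
        rw [Real.mul_rpow (by positivity) (by positivity), ← Real.rpow_mul hKM]
    _ ≤ _ := by
        gcongr
        simpa using Real.rpow_le_rpow_of_exponent_le hw he1

lemma pw {h l : ℝ} (hh : 1 ≤ h) (hl : 1 ≤ l) {a b n : ℕ} (ha : a ≤ n) (hb : b ≤ n) :
    h ^ a * l ^ b ≤ (h * l) ^ n := by
  rw [mul_pow]
  gcongr

lemma root3 {x : ℝ} (hx : 0 ≤ x) : (x ^ (1 / 3 : ℝ)) ^ 3 = x := by
  rw [← Real.rpow_natCast, ← Real.rpow_mul hx]; norm_num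

lemma root6 {x : ℝ} (hx : 0 ≤ x) : (x ^ (1 / 6 : ℝ)) ^ 6 = x := by
  rw [← Real.rpow_natCast, ← Real.rpow_mul hx]; norm_num

lemma sq_add_le (a b : ℂ) : ‖a + b‖ ^ 2 ≤ 2 * ‖a‖ ^ 2 + 2 * ‖b‖ ^ 2 := by
  have := norm_add_le a b
  nlinarith [norm_nonneg (a + b), norm_nonneg a, norm_nonneg b, sq_nonneg (‖a‖ - ‖b‖)]

/-- the shape in which the output of a step is used -/
lemma shape {C K M G w w' e H Nn Tp P u a b : ℝ} (hC : 0 < C) (hK : 1 ≤ K) (hM : 1 ≤ M)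
    (hw : 1 ≤ w) (hw' : 1 ≤ w') (hG0 : 0 ≤ G) (hG : G ≤ M ^ 2 * w') (he : 0 ≤ e) (he1 : e ≤ 1)
    (hH : 0 ≤ H) (hN : 0 ≤ Nn) (hP : 0 ≤ P) (hu : 0 ≤ u) (hT : P * u ≤ Tp) (ha0 : 0 ≤ a)
    (hb0 : 0 ≤ b) (ha : a ≤ w * u) (hb : b ≤ w * u) :
    C * K ^ 54 * (K * M * G) ^ e * H * Nn * (Tp + P * (a + b)) ≤
      3 * (w * w') * (C * K ^ 54 * (K * M) ^ (3 * e) * H * Nn * Tp) := by
  have hT0 : 0 ≤ Tp := (mul_nonneg hP hu).trans hT
  have h1 : Tp + P * (a + b) ≤ 3 * w * Tp := by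
    have h2 : P * (a + b) ≤ P * (w * u + w * u) := by gcongr
    have h3 : w * (P * u) ≤ w * Tp := by gcongr
    nlinarith
  have h2 := loss hK hM hw' hG0 hG he he1
  calc _ ≤ C * K ^ 54 * ((K * M) ^ (3 * e) * w') * H * Nn * (3 * w * Tp) := by gcongr
    _ = _ := by ring

end CC

open CC

theorem pC (hT : S_Tr) (h3 : S_F3) : S_C := by
  intro D d Q j i h0 h36 ⟨c, δ₀, hc, hδ₀, hδ₀1, hAB⟩
  refine ⟨3 * c + 2, min δ₀ (1 / (c + 1)), by positivity, lt_min hδ₀ (by positivity),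
    (min_le_left _ _).trans hδ₀1, fun δ hδ hδ' => ?_⟩
  have hδ1 : δ ≤ 1 := (hδ'.trans (min_le_left _ _)).trans hδ₀1
  have he : 0 ≤ c * δ := by positivity
  have he1 : c * δ ≤ 1 := by
    have := (le_div_iff₀ (by positivity : 0 < c + 1)).1 (hδ'.trans (min_le_right _ _))
    nlinarith
  obtain ⟨C, A, hC, hAB⟩ := hAB δ hδ (hδ'.trans (min_le_left _ _))
  obtain ⟨CT, AT, hCT, hT⟩ := hT D d Q i h0 h36
  obtain ⟨C3, k, hC3, h3⟩ := h3 Q h0 h36 δ (A + 2) hδ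
  refine ⟨CT + 100 * C * (1 + C3), A + k + AT + 8, by positivity, ?_⟩
  intro K M η Y₁ Y₂ t₁ t₂ x ν₁ ν₂ s hK hM hx h1 h2 hY₁ hY₂ hA hs
  wlog hle : Y₁ ≤ Y₂ generalizing Y₁ Y₂ t₁ t₂ ν₁ ν₂
  · have := this Y₂ Y₁ t₂ t₁ ν₂ ν₁ h2 h1 hY₂ hY₁ ⟨hA.1, by rcases hA.2 with h | h | h <;> simp [h]⟩
      (not_le.1 hle).le
    simpa only [mul_comm (Lm ν₂ _ Y₂ t₂), ht_comm t₂ t₁, mul_comm Y₂ Y₁, gr,
      mul_comm (1 + Y₂ / √M)] using this
  have hK1 : 1 ≤ K := by linarith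
  have hM0 : 0 < M := by linarith
  have hη := hA.1
  obtain ⟨P, hP⟩ : ∃ P, P = d.L x := ⟨_, rfl⟩
  have hP1 : 1 ≤ P := hP ▸ (d.len i K x hx).1
  obtain ⟨Tp, hTp⟩ : ∃ T, T = TT M η P * (1 + M / K ^ (6 * j)) ^ 9 := ⟨_, rfl⟩
  rw [← hP, ← hTp]
  have hT0 : 0 < TT M η P := TT_pos hM0 (by linarith) (by linarith)
  have hpen : TT M η P ≤ Tp := hTp ▸
    le_mul_of_one_le_right hT0.le (one_le_pow₀ (le_add_of_nonneg_right (by positivity)))
  have hTp0 : 0 < Tp := hT0.trans_le hpen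
  obtain ⟨l, hl⟩ : ∃ l, l = gr M Y₁ Y₂ := ⟨_, rfl⟩
  rw [← hl]
  obtain ⟨q, hq⟩ : ∃ q, q = M ^ (1 / 6 : ℝ) := ⟨_, rfl⟩
  have hq6 : q ^ 6 = M := hq ▸ root6 hM0.le
  have hq1 : 1 ≤ q := hq ▸ Real.one_le_rpow hM (by norm_num)
  have hr : √M = q ^ 3 := by
    rw [← hq6, show q ^ 6 = (q ^ 3) ^ 2 by ring, Real.sqrt_sq (by positivity)]
  have hq3 : 1 ≤ q ^ 3 := one_le_pow₀ hq1
  have hla : 1 ≤ 1 + Y₁ / √M := le_add_of_nonneg_right (by positivity)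
  have hlb : 1 ≤ 1 + Y₂ / √M := le_add_of_nonneg_right (by positivity)
  have hl1 : 1 ≤ l := hl ▸ one_le_mul_of_one_le_of_one_le hla hlb
  have hY2l : 1 + Y₂ ≤ q ^ 3 * l := by
    have e1 : 1 + Y₂ / √M ≤ l := hl ▸ le_mul_of_one_le_left (by linarith) hla
    have e2 : q ^ 3 * (1 + Y₂ / √M) = q ^ 3 + Y₂ := by rw [hr]; field_simp
    calc _ ≤ q ^ 3 * (1 + Y₂ / √M) := by rw [e2]; linarith
      _ ≤ _ := by gcongr
  have hY1l : 1 + Y₁ ≤ q ^ 3 * l := by linarith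
  obtain ⟨a, ha⟩ : ∃ a, a = η ^ (1 / 3 : ℝ) := ⟨_, rfl⟩
  have ha3 : a ^ 3 = η := ha ▸ root3 (by linarith)
  have ha1 : 1 ≤ a := ha ▸ Real.one_le_rpow hη (by norm_num)
  have hu : P * (q ^ 4 * a ^ 2) ≤ Tp := by
    refine le_trans ?_ hpen
    have e : (M * η) ^ (2 / 3 : ℝ) = q ^ 4 * a ^ 2 := by
      rw [← hq6, ← ha3, show q ^ 6 * a ^ 3 = (q ^ 2 * a) ^ 3 by ring, ← Real.rpow_natCast,
        ← Real.rpow_mul (by positivity), show ((3 : ℕ) : ℝ) * (2 / 3) = (2 : ℕ) by norm_num,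
        Real.rpow_natCast]
      ring
    rw [TT, e]; linarith
  have hqa : q ^ 4 ≤ q ^ 4 * a ^ 2 := le_mul_of_one_le_right (by positivity) (one_le_pow₀ ha1)
  have hh := one_le_ht t₁ t₂
  have hKM : 1 ≤ K * M := one_le_mul_of_one_le_of_one_le hK1 hM
  have hN : 0 < (Y₁ * Y₂ * P) ^ (1 + δ) := by positivity
  have hup : (K * M) ^ (3 * (c * δ)) ≤ (K * M) ^ ((3 * c + 2) * δ) :=
    Real.rpow_le_rpow_of_exponent_le hKM (by nlinarith)
  -- small families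
  rcases lt_or_ge M (K ^ 6) with hMK | hMK
  · refine (hT δ K M η Y₁ Y₂ t₁ t₂ x ν₁ ν₂ s hδ hδ1 hM hη hx h1 h2 hY₁ hY₂ hs).trans ?_
    have e1 : M ^ 9 ≤ K ^ 54 := by rw [show K ^ 54 = (K ^ 6) ^ 9 by ring]; gcongr
    have e2 := pw hh hl1 (a := AT) (b := 0) (n := A + k + AT + 8) (by omega) (by omega)
    rw [pow_zero, mul_one] at e2
    have e3 : 1 ≤ (K * M) ^ ((3 * c + 2) * δ) := Real.one_le_rpow hKM (by positivity)
    rw [← hP]
    calc _ = CT * M ^ 9 * 1 * ht t₁ t₂ ^ AT * (Y₁ * Y₂ * P) ^ (1 + δ) * TT M η P := by ring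
      _ ≤ _ := by
        gcongr
        exact le_add_of_nonneg_right (by positivity)
  have hs' : ∀ m ∈ s, m ≠ 0 ∧ (N m : ℝ) ≤ M := fun m hm => ⟨(hs m hm).1, (hs m hm).2.1⟩
  have hA0 : ∀ (Z₁ Z₂ v w : ℝ), 0 < Z₁ → 0 < Z₂ → Adm M η Z₁ Z₂ → 1 ≤ w →
      q * ((1 + Z₁) * (1 + Z₂)) ≤ w * (q ^ 4 * a ^ 2) → (1 + Z₁) * (1 + Z₂) ≤ M ^ 2 * w →
      ∑ m ∈ s, ‖Lm ν₁ m Z₁ t₁ * Lm ν₂ m Z₂ v * d.F x m‖ ^ 2 ≤ 3 * (w * w) *
        (C * K ^ 54 * (K * M) ^ (3 * (c * δ)) * ht t₁ v ^ A * (Z₁ * Z₂ * P) ^ (1 + δ) * Tp) := by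
    intro Z₁ Z₂ v w hZ₁ hZ₂ hZ hw e1 e2
    have h := hAB K M η 1 _ Z₁ Z₂ t₁ v 0 x ν₁ ν₂ s hK hMK hx h1 h2 hZ₁ hZ₂ (Or.inl ⟨rfl, rfl, rfl⟩)
      hZ (by simpa using hZ) hs'
    simp only [VV, zero_mul, sub_zero, mul_one, mul_assoc (K * M), ← hP, ← hTp, ← hq] at h
    have hv := (ht_pos t₁ v).le
    refine h.trans (shape hC hK1 hM hw hw (by positivity) e2 he he1 (by positivity) (by positivity)
      (by linarith) (by positivity) hu (by positivity) (by positivity) (le_trans ?_ e1) e1)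
    calc _ ≤ (1 + Z₁) * (1 + Z₂) := by gcongr <;> linarith
      _ ≤ _ := le_mul_of_one_le_left (by positivity) hq1
  obtain ⟨g, hg⟩ : ∃ g, g = Y₁ ^ (1 / 3 : ℝ) := ⟨_, rfl⟩
  have hg3 : g ^ 3 = Y₁ := hg ▸ root3 hY₁.le
  have hg0 : 0 < g := hg ▸ by positivity
  have hl3 : l ≤ l ^ 3 := le_self_pow₀ hl1 (by norm_num)
  have hgq : g ≤ q * l := by
    refine le_of_pow_le_pow_left₀ (n := 3) (by norm_num) (by positivity) ?_
    rw [hg3, mul_pow]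
    calc _ ≤ q ^ 3 * l := by linarith
      _ ≤ _ := by gcongr
  have hY1η : Y₁ ≤ η ∨ M ≤ η ^ 2 := by
    rcases hA.2 with h | h | h
    exacts [Or.inl h, Or.inl (hle.trans h), Or.inr h]
  have hga : g ≤ a * l := by
    rcases hY1η with h | h
    · refine le_trans (le_of_pow_le_pow_left₀ (n := 3) (by norm_num) (by positivity) ?_)
        (le_mul_of_one_le_right (by positivity) hl1)
      rwa [hg3, ha3]
    · refine hgq.trans (mul_le_mul_of_nonneg_right ?_ (by positivity))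
      refine le_of_pow_le_pow_left₀ (n := 6) (by norm_num) (by positivity) ?_
      rwa [hq6, show a ^ 6 = (a ^ 3) ^ 2 by ring, ha3]
  have hMM : M ≤ M ^ 2 := le_self_pow₀ hM (by norm_num)
  have fin : ∀ (z : ℝ) (n e : ℕ), 0 ≤ z → z ≤ 100 * (1 + C3) → n ≤ A + k → e ≤ 8 →
      z * l ^ e * (C * K ^ 54 * (K * M) ^ ((3 * c + 2) * δ) * ht t₁ t₂ ^ n *
        (Y₁ * Y₂ * P) ^ (1 + δ) * Tp) ≤ (CT + 100 * C * (1 + C3)) * K ^ 54 *
          (K * M) ^ ((3 * c + 2) * δ) * (ht t₁ t₂ * l) ^ (A + k + AT + 8) *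
            (Y₁ * Y₂ * P) ^ (1 + δ) * Tp := by
    intro z n e hz0 hz hn he
    have e2 := pw hh hl1 (a := n) (b := e) (n := A + k + AT + 8) (by omega) (by omega)
    calc _ = z * C * K ^ 54 * (K * M) ^ ((3 * c + 2) * δ) * (ht t₁ t₂ ^ n * l ^ e) *
        (Y₁ * Y₂ * P) ^ (1 + δ) * Tp := by ring
      _ ≤ _ := by
        have e3 : z * C ≤ CT + 100 * C * (1 + C3) := by
          have := mul_le_mul_of_nonneg_right hz hC.le
          linarith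
        gcongr
  by_cases hcase : Y₁ ≤ 1 ∨ g * Y₂ ≤ q ^ 3
  · have hw : 1 ≤ 4 * l ^ 2 := by linarith [one_le_pow₀ (n := 2) hl1]
    refine (hA0 Y₁ Y₂ t₂ (4 * l ^ 2) hY₁ hY₂ hA hw ?_ ?_).trans
      (le_trans ?_ (fin 48 A 4 (by norm_num) (by linarith) (by omega) (by omega)))
    · rcases le_or_gt Y₁ 1 with h | h
      · calc _ ≤ q * (2 * (q ^ 3 * l)) := by gcongr; linarith
          _ = 2 * l * q ^ 4 := by ring
          _ ≤ _ := by
            gcongr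
            · norm_num
            · exact le_self_pow₀ hl1 (by norm_num)
      · have h' : g * Y₂ ≤ q ^ 3 := hcase.resolve_left (not_le.2 h)
        calc _ ≤ q * ((2 * Y₁) * (2 * Y₂)) := by gcongr <;> linarith
          _ = 4 * q * g ^ 2 * (g * Y₂) := by rw [← hg3]; ring
          _ ≤ 4 * q * (a * l) ^ 2 * q ^ 3 := by gcongr
          _ = _ := by ring
    · calc _ ≤ (q ^ 3 * l) * (q ^ 3 * l) := by gcongr
        _ = M * l ^ 2 := by rw [← hq6]; ring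
        _ ≤ _ := by gcongr; linarith [sq_nonneg l]
    · rw [show 3 * (4 * l ^ 2 * (4 * l ^ 2)) = 48 * l ^ 4 by ring]
      gcongr
  obtain ⟨hb1, hb2⟩ := not_or.1 hcase
  rw [not_le] at hb1 hb2
  have hg1 : 1 ≤ g := hg ▸ Real.one_le_rpow hb1.le (by norm_num)
  have hτ : 1 ≤ g ^ 2 := one_le_pow₀ hg1
  have hS : Y₁ / g ^ 2 = g := by rw [← hg3]; field_simp
  have hgY : g ≤ Y₁ := by rw [← hg3]; exact le_self_pow₀ hg1 (by norm_num)
  have hY2 : Y₂ ≤ Y₂ * g ^ 2 := le_mul_of_one_le_right hY₂.le hτ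
  have hX : 1 ≤ Y₂ * g ^ 2 := by linarith
  have hAg : ∀ Y, Adm M η g Y := fun Y =>
    ⟨hη, hY1η.elim (fun h => Or.inl (hgY.trans h)) fun h => Or.inr (Or.inr h)⟩
  have hY2q : Y₂ ≤ q ^ 3 * l := by linarith
  -- the centered part
  have hB := hAB K M η (g ^ 2) _ Y₁ Y₂ t₁ t₂ 1 x ν₁ ν₂ s hK hMK hx h1 h2 hY₁ hY₂
    (Or.inr ⟨rfl, hτ, rfl⟩) hA (by rw [hS]; exact hAg _) hs'
  rw [mul_assoc (K * M), ← hP, ← hTp, ← hq] at hB
  have hl4 : 1 ≤ l ^ 4 := one_le_pow₀ hl1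
  replace hB := hB.trans (shape (w := 3 * l ^ 4) (w' := 2 * l ^ 4) hC hK1 hM (by linarith)
    (by linarith) (by positivity) (by
      calc _ ≤ (q ^ 3 * l) * (2 * (Y₂ * g ^ 2)) := by gcongr; linarith
        _ ≤ (q ^ 3 * l) * (2 * (q ^ 3 * l * (q * l) ^ 2)) := by gcongr
        _ = q ^ 8 * (2 * l ^ 4) := by ring
        _ ≤ _ := by
          gcongr
          rw [← hq6, ← pow_mul]
          exact pow_le_pow_right₀ hq1 (by norm_num)) he he1 (by positivity) hN.le (by linarith)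
    (by positivity) hu (by positivity) (by positivity) (by
      calc _ = g ^ 2 * g * Y₂ := by rw [← hg3]; ring
        _ ≤ (a * l) ^ 2 * (q * l) * (q ^ 3 * l) := by gcongr
        _ = l ^ 4 * (q ^ 4 * a ^ 2) := by ring
        _ ≤ _ := by gcongr; linarith) (by
      calc _ ≤ q * (3 * (Y₂ * g ^ 2)) := by gcongr; linarith
        _ ≤ q * (3 * (q ^ 3 * l * (a * l) ^ 2)) := by gcongr
        _ = 3 * l ^ 3 * (q ^ 4 * a ^ 2) := by ring
        _ ≤ _ := by gcongr; norm_num))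
  -- the companion
  have h1t : 0 ≤ 1 + |t₁| := by positivity
  have hF := h3 O s (fun _ => ν₂) id (fun m => ‖Lm ν₁ m g t₁ * d.F x m‖ ^ 2) M (Y₂ * g ^ 2) t₂
    (48 * l ^ 2 * (C * K ^ 54 * (K * M) ^ (3 * (c * δ)) * (1 + |t₁|) ^ A * (g * P) ^ (1 + δ) * Tp))
    hM hX (by positivity)
    (fun m hm => ⟨h2, (hs m hm).1, rad_self (hs m hm).1 (hs m hm).2.1,
      fun h => (hs m hm).2.2 ⟨ν₂, h2, h⟩, by positivity⟩) fun Y v hY => by
      obtain ⟨w, hw⟩ : ∃ w, w = 1 + Y * (Y₂ * g ^ 2) / M := ⟨_, rfl⟩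
      rw [← hw]
      have hw1 : 1 ≤ w := hw ▸ le_add_of_nonneg_right (by positivity)
      have e0 : g * Y ≤ q ^ 3 * w := by
        refine le_of_mul_le_mul_right ?_ (by positivity : 0 < q ^ 3)
        calc _ ≤ g * Y * (g * Y₂) := by gcongr
          _ = Y * (Y₂ * g ^ 2) := by ring
          _ ≤ M + Y * (Y₂ * g ^ 2) := by linarith
          _ = _ := by rw [hw, ← hq6]; field_simp
      have e1 : (1 + g) * (1 + Y) ≤ 4 * l * w * q ^ 3 := by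
        have e2 : g ≤ q ^ 3 * l * w := by
          refine le_trans (by linarith) (le_mul_of_one_le_right (by positivity) hw1)
        have e3 : q ^ 3 * w ≤ q ^ 3 * l * w := by gcongr; exact le_mul_of_one_le_right (by positivity) hl1
        calc _ ≤ (2 * g) * (1 + Y) := by gcongr; linarith
          _ ≤ _ := by linarith
      have hlw : 1 ≤ l * w := one_le_mul_of_one_le_of_one_le hl1 hw1
      have h := hA0 g Y v (4 * l * w) hg0 hY (hAg Y) (by linarith) (by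
        calc _ ≤ q * (4 * l * w * q ^ 3) := by gcongr
          _ = 4 * l * w * q ^ 4 := by ring
          _ ≤ _ := by gcongr) (by
        refine e1.trans ?_
        rw [mul_comm]
        gcongr
        rw [← hq6, ← pow_mul]
        exact pow_le_pow_right₀ hq1 (by norm_num))
      simp only [id]
      have hv : 1 ≤ 1 + |v| := le_add_of_nonneg_right (abs_nonneg v)
      have hhv := (ht_pos t₁ v).le
      calc _ = ∑ m ∈ s, ‖Lm ν₁ m g t₁ * Lm ν₂ m Y v * d.F x m‖ ^ 2 :=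
            Finset.sum_congr rfl fun m _ => by simp only [norm_mul]; ring
        _ ≤ _ := h
        _ ≤ 3 * (4 * l * w * (4 * l * w)) * (C * K ^ 54 * (K * M) ^ (3 * (c * δ)) *
            ((1 + |t₁|) * (1 + |v|)) ^ A * (g * Y * P) ^ (1 + δ) * Tp) := by
            gcongr
            exact ht_le t₁ v
        _ = 48 * l ^ 2 * (C * K ^ 54 * (K * M) ^ (3 * (c * δ)) * (1 + |t₁|) ^ A *
            (g * P) ^ (1 + δ) * Tp) * Y ^ (1 + δ) * w ^ 2 * (1 + |v|) ^ A := by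
            rw [mul_right_comm g, Real.mul_rpow (by positivity) hY.le, mul_pow]; ring
        _ ≤ _ := by gcongr <;> omega
  simp only [id] at hF
  have hF' : ∑ m ∈ s, ‖Lm ν₁ m g t₁ * d.F x m‖ ^ 2 * ‖Lm ν₂ m (Y₂ * g ^ 2) t₂‖ ^ 2 ≤
      48 * C3 * l ^ 8 * (C * K ^ 54 * (K * M) ^ ((3 * c + 2) * δ) * ht t₁ t₂ ^ (A + k) *
        (Y₁ * Y₂ * P) ^ (1 + δ) * Tp) := by
    refine hF.trans ?_
    have e1 : Y₂ * g ^ 2 ≤ (Y₂ * g ^ 2) ^ (1 + δ) := by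
      simpa using Real.rpow_le_rpow_of_exponent_le hX (by linarith : (1 : ℝ) ≤ 1 + δ)
    have e2 : M ≤ K * M := le_mul_of_one_le_left hM0.le hK1
    have e3 := le_ht_left t₁ t₂
    have e4 := le_ht_right t₁ t₂
    calc _ ≤ C3 * ht t₁ t₂ ^ k * (K * M) ^ (2 * δ) * (48 * l ^ 8 * (C * K ^ 54 *
        (K * M) ^ (3 * (c * δ)) * ht t₁ t₂ ^ A * (g * P) ^ (1 + δ) * Tp)) *
          (Y₂ * g ^ 2) ^ (1 + δ) := by gcongr; norm_num
      _ = _ := by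
        rw [show Y₁ * Y₂ * P = g * P * (Y₂ * g ^ 2) by rw [← hg3]; ring,
          Real.mul_rpow (x := g * P) (by positivity) (by positivity),
          show (3 * c + 2) * δ = 3 * (c * δ) + 2 * δ by ring,
          Real.rpow_add (x := K * M) (by positivity)]
        ring
  have hB' : ∑ m ∈ s, ‖VV ν₁ ν₂ 1 (g ^ 2) Y₁ Y₂ t₁ t₂ m * d.F x m‖ ^ 2 ≤
      18 * l ^ 8 * (C * K ^ 54 * (K * M) ^ ((3 * c + 2) * δ) * ht t₁ t₂ ^ (A + k) *
        (Y₁ * Y₂ * P) ^ (1 + δ) * Tp) := by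
    refine hB.trans ?_
    rw [show 3 * (3 * l ^ 4 * (2 * l ^ 4)) = 18 * l ^ 8 by ring]
    gcongr
    omega
  refine le_trans ?_ (fin (36 + 96 * C3) (A + k) 8 (by positivity) (by linarith) le_rfl le_rfl)
  calc _ ≤ ∑ m ∈ s, (2 * ‖VV ν₁ ν₂ 1 (g ^ 2) Y₁ Y₂ t₁ t₂ m * d.F x m‖ ^ 2 +
        2 * (‖Lm ν₁ m g t₁ * d.F x m‖ ^ 2 * ‖Lm ν₂ m (Y₂ * g ^ 2) t₂‖ ^ 2)) := by
        refine Finset.sum_le_sum fun m _ => ?_
        have e := sq_add_le (VV ν₁ ν₂ 1 (g ^ 2) Y₁ Y₂ t₁ t₂ m * d.F x m)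
          (((g ^ 2 : ℝ) : ℂ) ^ (((t₁ - t₂ : ℝ) : ℂ) * Complex.I) *
            (Lm ν₁ m g t₁ * d.F x m * Lm ν₂ m (Y₂ * g ^ 2) t₂))
        rw [norm_mul (_ ^ _), QA.norm_cpow_I (by positivity), one_mul, norm_mul (_ * _), mul_pow] at e
        refine le_trans (le_of_eq ?_) e
        congr 2
        rw [VV, hS]; ring
    _ ≤ _ := by
        rw [Finset.sum_add_distrib, ← Finset.mul_sum, ← Finset.mul_sum]
        linarith

end Pool.Agent.P.MP_323ce2_nt.QR
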