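import Pool.Agent.P.MP_323ce2_nt.QR.St

/-! The centered product at an exceptional element. -/

namespace Pool.Agent.P.MP_323ce2_nt.QR

open Pool.Agent.P.MP_26a8c3_nt Pool.Agent.P.MP_26a8c3_nt.QO Pool.Agent.P.MP_26a8c3_nt.QA
open Pool.Agent.P.MP_323ce2_nt.QZ Pool.Agent.P.MP_323ce2_nt.QF
open scoped Classical ComplexConjugate

namespace Cen

lemma wt_le {X : ℝ} (hX : 0 < X) (t : ℝ) : ‖Wt X t 1‖ ≤ 6 * X := by
  have h := norm_Wt X t 1 0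
  simp only [Complex.ofReal_one, Complex.ofReal_zero, zero_mul, add_zero, one_mul, one_pow,
    zero_add] at h
  rw [h, Real.exp_add, Real.exp_log hX]
  have h1 : √Real.pi ≤ 2 := Real.sqrt_le_iff.2 ⟨by norm_num, by linarith [Real.pi_le_four]⟩
  have h2 : Real.exp ((1 - t ^ 2) / 4) ≤ 3 :=
    (Real.exp_le_exp.2 (by nlinarith [sq_nonneg t])).trans Real.exp_one_lt_three.le
  calc _ ≤ 2 * (X * 3) := by gcongr
    _ = _ := by ring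

lemma wt_mul {a b τ : ℝ} (ha : 0 < a) (hb : 0 < b) (hτ : 0 < τ) (t₁ t₂ : ℝ) :
    (τ : ℂ) ^ (((t₁ - t₂ : ℝ) : ℂ) * Complex.I) * (Wt (a / τ) t₁ 1 * Wt (b * τ) t₂ 1) =
      Wt a t₁ 1 * Wt b t₂ 1 := by
  have key : ∀ p x y z y' z' : ℂ, x + (y + z) = y' + z' → Complex.exp x *
      (p * Complex.exp y * (p * Complex.exp z)) = p * Complex.exp y' * (p * Complex.exp z') := by
    intro p x y z y' z' h
    have := congrArg Complex.exp h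
    simp only [Complex.exp_add] at this
    linear_combination p * p * this
  rw [Complex.cpow_def_of_ne_zero (by exact_mod_cast hτ.ne'), ← Complex.ofReal_log hτ.le, Wt, Wt,
    Wt, Wt, Real.log_div ha.ne' hτ.ne', Real.log_mul hb.ne' hτ.ne']
  refine key _ _ _ _ _ _ ?_
  push_cast
  ring

lemma sq_le {x δ : ℝ} (hx : 0 < x) (h0 : 0 < δ) (h1 : δ ≤ 1) : x ^ 2 ≤ (1 + x) * x ^ (1 + δ) := by
  have hp := Real.rpow_pos_of_pos hx (1 + δ)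
  rcases le_total x 1 with h | h
  · have := Real.rpow_le_rpow_of_exponent_ge hx h (show 1 + δ ≤ 2 by linarith)
    rw [Real.rpow_two] at this
    nlinarith
  · have := Real.rpow_le_rpow_of_exponent_le h (show 1 ≤ 1 + δ by linarith)
    rw [Real.rpow_one] at this
    nlinarith

lemma min_le {a b δ E : ℝ} (ha : 0 < a) (hb : 0 < b) (h0 : 0 < δ) (h1 : δ ≤ 1) (hE : 1 + a ≤ E) :
    a * min 1 b ≤ √(E * (a * b) ^ (1 + δ)) := by
  have hm : 0 < min 1 b := lt_min one_pos hb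
  refine Real.le_sqrt_of_sq_le ((sq_le (mul_pos ha hm) h0 h1).trans ?_)
  have h2 : a * min 1 b ≤ a := mul_le_of_le_one_right ha.le (min_le_left _ _)
  have h3 : a * min 1 b ≤ a * b := mul_le_mul_of_nonneg_left (min_le_right _ _) ha.le
  exact mul_le_mul (by linarith) (Real.rpow_le_rpow (by positivity) h3 (by linarith))
    (by positivity) (by linarith)

lemma pair {L₁ L₂ κ₁ κ₂ w₁ w₂ : ℂ} {D a b δ E : ℝ} (ha : 0 < a) (hb : 0 < b) (h0 : 0 < δ)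
    (h1 : δ ≤ 1) (hD : 0 ≤ D) (Ea : 1 + a ≤ E) (Eb : 1 + b ≤ E) (k₁ : ‖κ₁‖ ≤ D) (k₂ : ‖κ₂‖ ≤ D)
    (u₁ : ‖w₁‖ ≤ 6 * a) (u₂ : ‖w₂‖ ≤ 6 * b) (e₁ : ‖L₁ - κ₁ * w₁‖ ≤ D * min 1 a)
    (e₂ : ‖L₂ - κ₂ * w₂‖ ≤ D * min 1 b) :
    ‖L₁ * L₂ - κ₁ * κ₂ * (w₁ * w₂)‖ ≤ 13 * D ^ 2 * √(E * (a * b) ^ (1 + δ)) := by
  have m₁ := min_le ha hb h0 h1 Ea
  have m₂ := min_le hb ha h0 h1 Eb
  rw [mul_comm b a] at m₂
  have pa : 0 ≤ min 1 a := le_min zero_le_one ha.le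
  have pb : 0 ≤ min 1 b := le_min zero_le_one hb.le
  have m₃ : min 1 a * min 1 b ≤ a * min 1 b := mul_le_mul_of_nonneg_right (min_le_right _ _) pb
  have e : L₁ * L₂ - κ₁ * κ₂ * (w₁ * w₂) = κ₁ * w₁ * (L₂ - κ₂ * w₂) + (L₁ - κ₁ * w₁) * (κ₂ * w₂) +
      (L₁ - κ₁ * w₁) * (L₂ - κ₂ * w₂) := by ring
  rw [e]
  refine norm_add₃_le.trans ?_
  simp only [norm_mul]
  calc _ ≤ D * (6 * a) * (D * min 1 b) + D * min 1 a * (D * (6 * b)) +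
        D * min 1 a * (D * min 1 b) := by gcongr
    _ = D ^ 2 * (6 * (a * min 1 b) + 6 * (b * min 1 a) + min 1 a * min 1 b) := by ring
    _ ≤ D ^ 2 * (13 * √(E * (a * b) ^ (1 + δ))) :=
        mul_le_mul_of_nonneg_left (by linarith) (sq_nonneg D)
    _ = _ := by ring

lemma one {L κ w : ℂ} {D a : ℝ} (hD : 0 ≤ D) (k : ‖κ‖ ≤ D) (u : ‖w‖ ≤ 6 * a)
    (e : ‖L - κ * w‖ ≤ D * min 1 a) : ‖L‖ ≤ 7 * D * a := by
  have h1 := norm_le_insert' L (κ * w)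
  have h2 : ‖κ * w‖ ≤ D * (6 * a) := by rw [norm_mul]; gcongr
  have h3 : D * min 1 a ≤ D * a := mul_le_mul_of_nonneg_left (min_le_right _ _) hD
  linarith

end Cen

open Cen in
theorem pCen (h : S_Main) : S_Cen := by
  intro Q hQ h36
  obtain ⟨C, k, hC, h⟩ := h Q hQ h36
  refine ⟨2401 * C ^ 4, 4 * k, by positivity, ?_⟩
  intro ν₁ ν₂ m z δ τ E Y₁ Y₂ a b t₁ t₂ n₁ n₂ hm hE h0 h1 hM ha haY hb hbY
  obtain ⟨κ₁, k₁, e₁⟩ := h ν₁ m n₁ hm hE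
  obtain ⟨κ₂, k₂, e₂⟩ := h ν₂ m n₂ hm hE
  have hd : 0 ≤ dv m := Nat.cast_nonneg _
  have hh := one_le_ht t₁ t₂
  have hk : 1 ≤ ht t₁ t₂ ^ k := one_le_pow₀ hh
  set D : ℝ := C * ht t₁ t₂ ^ k * dv m with hD
  have D0 : 0 ≤ D := by positivity
  have kD : C * dv m ≤ D := mul_le_mul_of_nonneg_right (le_mul_of_one_le_right hC.le hk) hd
  have f₁ : ∀ X : ℝ, 0 < X → ‖Lm ν₁ m X t₁ - κ₁ * Wt X t₁ 1‖ ≤ D * min 1 X := fun X hX =>
    (e₁ X t₁ hX).trans (by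
      have := le_ht_left t₁ t₂
      have : 0 ≤ min 1 X := le_min zero_le_one hX.le
      rw [hD]; gcongr)
  have f₂ : ∀ X : ℝ, 0 < X → ‖Lm ν₂ m X t₂ - κ₂ * Wt X t₂ 1‖ ≤ D * min 1 X := fun X hX =>
    (e₂ X t₂ hX).trans (by
      have := le_ht_right t₁ t₂
      have : 0 ≤ min 1 X := le_min zero_le_one hX.le
      rw [hD]; gcongr)
  have fin : 2401 * C ^ 4 * dv m ^ 4 * ht t₁ t₂ ^ (4 * k) * E * (a * b) ^ (1 + δ) =
      2401 * D ^ 4 * (E * (a * b) ^ (1 + δ)) := by rw [hD]; ring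
  rw [fin]
  have hp : 0 < (a * b) ^ (1 + δ) := by positivity
  rcases hM with ⟨rfl, rfl, rfl⟩ | ⟨rfl, hτ, rfl⟩
  · have l₁ := one D0 (k₁.trans kD) (wt_le ha t₁) (f₁ a ha)
    have l₂ := one D0 (k₂.trans kD) (wt_le hb t₂) (f₂ b hb)
    have s₁ := sq_le ha h0 h1
    have s₂ := sq_le hb h0 h1
    have y₁ : 1 + a ≤ 1 + Y₁ := by linarith
    have y₂ : 1 + b ≤ 1 + Y₂ := by linarith
    have y₃ : 0 ≤ 1 + Y₁ := by linarith
    rw [VV, zero_mul, zero_mul, sub_zero, norm_mul, Real.mul_rpow ha.le hb.le]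
    calc _ ≤ (7 * D * a * (7 * D * b)) ^ 2 := by gcongr
      _ = 2401 * D ^ 4 * (a ^ 2 * b ^ 2) := by ring
      _ ≤ 2401 * D ^ 4 * ((1 + Y₁) * a ^ (1 + δ) * ((1 + Y₂) * b ^ (1 + δ))) := by
        refine mul_le_mul_of_nonneg_left (mul_le_mul (s₁.trans ?_) (s₂.trans ?_) (sq_nonneg _)
          (by positivity)) (by positivity) <;> gcongr
      _ = _ := by ring
  · have τ0 : 0 < τ := by linarith
    have g₁ : a / τ ≤ a := div_le_self ha.le hτ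
    have g₂ : b ≤ b * τ := le_mul_of_one_le_right hb.le hτ
    have g₃ : b * τ ≤ Y₂ * τ := mul_le_mul_of_nonneg_right hbY τ0.le
    have ha' : 0 < a / τ := by positivity
    have hb' : 0 < b * τ := by positivity
    have p₁ := pair (E := 1 + Y₁ + Y₂ * τ) ha hb h0 h1 D0 (by linarith) (by linarith) (k₁.trans kD)
      (k₂.trans kD) (wt_le ha t₁) (wt_le hb t₂) (f₁ a ha) (f₂ b hb)
    have p₂ := pair (E := 1 + Y₁ + Y₂ * τ) ha' hb' h0 h1 D0 (by linarith) (by linarith)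
      (k₁.trans kD) (k₂.trans kD) (wt_le ha' t₁) (wt_le hb' t₂) (f₁ _ ha') (f₂ _ hb')
    rw [show a / τ * (b * τ) = a * b by field_simp] at p₂
    have w := wt_mul ha hb τ0 t₁ t₂
    set u : ℂ := (τ : ℂ) ^ (((t₁ - t₂ : ℝ) : ℂ) * Complex.I) with hu
    have nu : ‖u‖ = 1 := by rw [hu, Complex.norm_cpow_eq_rpow_re_of_pos τ0]; simp
    have e : VV ν₁ ν₂ 1 τ a b t₁ t₂ m =
        (Lm ν₁ m a t₁ * Lm ν₂ m b t₂ - κ₁ * κ₂ * (Wt a t₁ 1 * Wt b t₂ 1)) -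
        u * (Lm ν₁ m (a / τ) t₁ * Lm ν₂ m (b * τ) t₂ -
          κ₁ * κ₂ * (Wt (a / τ) t₁ 1 * Wt (b * τ) t₂ 1)) := by
      rw [VV, ← hu, ← w]; ring
    have hS : 0 ≤ (1 + Y₁ + Y₂ * τ) * (a * b) ^ (1 + δ) := mul_nonneg (by linarith) hp.le
    have q : ‖VV ν₁ ν₂ 1 τ a b t₁ t₂ m‖ ≤
        26 * D ^ 2 * √((1 + Y₁ + Y₂ * τ) * (a * b) ^ (1 + δ)) := by
      rw [e]
      refine (norm_sub_le _ _).trans ?_
      rw [norm_mul, nu, one_mul]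
      linarith
    refine (pow_le_pow_left₀ (norm_nonneg _) q 2).trans ?_
    rw [mul_pow, Real.sq_sqrt hS]
    refine mul_le_mul_of_nonneg_right ?_ hS
    have := pow_nonneg D0 4
    calc (26 * D ^ 2) ^ 2 = 676 * D ^ 4 := by ring
      _ ≤ _ := by linarith

end Pool.Agent.P.MP_323ce2_nt.QR
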