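import Pool.Agent.P.MP_323ce2_nt.QR.St
import Pool.Agent.P.MP_323ce2_nt.QF.Dec
import Pool.Agent.P.MP_26a8c3_nt.QO.All

/-! The number of exceptional elements. -/

namespace Pool.Agent.P.MP_323ce2_nt.QR

open Pool.Agent.P.MP_26a8c3_nt Pool.Agent.P.MP_26a8c3_nt.QO Pool.Agent.P.MP_26a8c3_nt.QA
open Pool.Agent.P.MP_323ce2_nt.QZ Pool.Agent.P.MP_323ce2_nt.QF
open scoped Classical ComplexConjugate

lemma cnt_cop {q n : O} (e : q ∣ n - 1) : IsCoprime n q := by
  obtain ⟨t, ht⟩ := e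
  have : n = 1 + q * t := by rw [← ht]; ring
  rw [this]; exact isCoprime_one_left.add_mul_left_left t

lemma cnt_xi {n a : O} (ha : Od a) (e : 4 ∣ n - 1) : xi n a = 1 := by
  obtain ⟨-, -, -, -, hs, -, hx, -⟩ := alg.gam
  rw [hs n a, (hx a ha).per n 1 e, (hx a ha).one]

lemma cnt_psi_one {Q h n : O} (h36 : 36 ∣ Q) (hh : h ≠ 0) (e : 2 * Q * h ∣ n - 1) :
    psi n h = 1 := by
  have h3 : (3 : O) ∣ Q := Dvd.dvd.trans ⟨12, by norm_num⟩ h36
  have h2 : (2 : O) ∣ Q := Dvd.dvd.trans ⟨18, by norm_num⟩ h36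
  have h4 : (4 : O) ∣ Q := Dvd.dvd.trans ⟨9, by norm_num⟩ h36
  have e2 : 2 * Q ∣ n - 1 := (dvd_mul_right _ _).trans e
  have eQ : Q ∣ n - 1 := (dvd_mul_left _ _).trans e2
  have hn : Primary n := h3.trans eQ
  obtain ⟨g, a, hg, hgQ, ha, hc, rfl⟩ := exists_split h3 hh
  have oa : Od a := hc.of_isCoprime_of_dvd_right h2
  have on : Od n := cnt_cop (h2.trans eQ)
  have ea : a ∣ n - 1 := ((dvd_mul_left a g).mul_left _).trans e
  rw [psi_mul, alg.per Q g n 1 h36 hg hgQ hn primary_one (cnt_cop eQ) e2,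
    psi_unit_left isUnit_one, alg.qr.2.2 n a hn ha on oa, cnt_xi oa (h4.trans eQ), psi_congr ea,
    (isNu_psi ha.ne_zero).one]
  simp

lemma cnt_six {Q p a : O} {j : ℕ} (h36 : 36 ∣ Q) (hp : Prime p) (h1 : Primary p)
    (hpQ : ¬ p ∣ Q) (hpa : ¬ p ∣ a) (hE : EX Q (p ^ j * a)) : 6 ∣ j := by
  by_contra hj
  have h3 : (3 : O) ∣ Q := Dvd.dvd.trans ⟨12, by norm_num⟩ h36
  have h2 : (2 : O) ∣ Q := Dvd.dvd.trans ⟨18, by norm_num⟩ h36
  have h4 : (4 : O) ∣ Q := Dvd.dvd.trans ⟨9, by norm_num⟩ h36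
  have ha : a ≠ 0 := by rintro rfl; exact hpa (dvd_zero _)
  have cQ : IsCoprime p Q := hp.coprime_iff_not_dvd.2 hpQ
  have op : Od p := cQ.of_isCoprime_of_dvd_right h2
  have j0 : j ≠ 0 := by rintro rfl; exact hj (dvd_zero _)
  obtain ⟨x, hx⟩ := Function.ne_iff.1 ((alg.ord p j hp h1).2 op hj)
  have cx : IsCoprime x p := by
    by_contra h
    exact hx (by rw [(psi_eq_zero hp.ne_zero).2 h, cop_of_not h, zero_pow j0])
  rw [cop_of cx] at hx
  have cc : IsCoprime p (2 * Q * a) :=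
    (IsCoprime.mul_right op cQ).mul_right (hp.coprime_iff_not_dvd.2 hpa)
  obtain ⟨u, v, huv⟩ := cc
  set n : O := u * p + x * (v * (2 * Q * a)) with hn
  have e1 : 2 * Q * a ∣ n - 1 := ⟨x * v - v, by rw [hn, ← huv]; ring⟩
  have e2 : p ∣ n - x := ⟨u - x * u, by rw [hn]; linear_combination x * huv⟩
  have eQ : Q ∣ n - 1 := ((dvd_mul_left Q 2).mul_right a).trans e1
  have ea : a ∣ n - 1 := (dvd_mul_left a _).trans e1
  have pn : Primary n := h3.trans eQ
  have cp : IsCoprime n p := by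
    obtain ⟨t, ht⟩ := e2
    have : n = x + p * t := by rw [← ht]; ring
    rw [this]; exact cx.add_mul_left_left t
  obtain ⟨ν, hν, hE⟩ := hE
  have := hE n pn ((cnt_cop eQ).mul_right (cp.pow_right.mul_right (cnt_cop ea)))
  rw [ph, hν.per n 1 eQ, hν.one, psi_mul, psi_pow, cnt_psi_one h36 ha e1,
    alg.qr.2.2 n p pn h1 (cnt_cop (h2.trans eQ)) op, cnt_xi op (h4.trans eQ), psi_congr e2] at this
  exact hx (by simpa using this)

lemma cnt_free {m : O} (hm : m ≠ 0) :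
    ∃ a k : O, m = a * k ^ 6 ∧ ∀ p, Prime p → ¬ p ^ 6 ∣ a := by
  suffices h : ∀ n, ∀ m : O, m ≠ 0 → N m = n →
      ∃ a k : O, m = a * k ^ 6 ∧ ∀ p, Prime p → ¬ p ^ 6 ∣ a from h _ m hm rfl
  intro n
  induction n using Nat.strong_induction_on with
  | _ n ih =>
    intro m hm hn
    by_cases h : ∀ p, Prime p → ¬ p ^ 6 ∣ m
    · exact ⟨m, 1, by simp, h⟩
    push Not at h
    obtain ⟨p, hp, c, rfl⟩ := h
    have hc : c ≠ 0 := right_ne_zero_of_mul hm
    have hlt : N c < n := by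
      have h2 := two_le_N hp
      have h0 := N_pos hc
      have h6 : 2 ≤ N p ^ 6 := h2.trans (Nat.le_self_pow (by norm_num) _)
      rw [← hn, map_mul, map_pow]; nlinarith
    obtain ⟨a, k, e, h⟩ := ih _ hlt c hc rfl
    exact ⟨a, p * k, by rw [e]; ring, h⟩

lemma cnt_dec {Q m : O} (hQ : Q ≠ 0) (h36 : 36 ∣ Q) (hm : m ≠ 0) (hE : EX Q m) :
    ∃ a k : O, m = a * k ^ 6 ∧ a ∣ Q ^ 5 := by
  have h3 : (3 : O) ∣ Q := Dvd.dvd.trans ⟨12, by norm_num⟩ h36
  obtain ⟨a, k, rfl, hf⟩ := cnt_free hm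
  have ha : a ≠ 0 := left_ne_zero_of_mul hm
  have hk : k ≠ 0 := by rintro rfl; simp at hm
  have key : ∀ p, Prime p → p ∣ a → p ∣ Q := fun p hp hpa => by
    by_contra hpQ
    have e1 := normalize_associated p
    have hq : Prime (normalize p) := e1.symm.prime hp
    have hqQ : ¬ normalize p ∣ Q := fun e => hpQ (e1.symm.dvd.trans e)
    have h1 : Primary (normalize p) := (nrm_normalize hp.ne_zero).primary fun e =>
      hqQ ((prime_lam.associated_of_dvd hq e).symm.dvd.trans (lam_dvd_three.trans h3))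
    have hqa : normalize p ∣ a := e1.dvd.trans hpa
    generalize normalize p = q at hq hqQ h1 hqa
    obtain ⟨i, b, hb, rfl⟩ := WfDvdMonoid.max_power_factor ha hq.irreducible
    obtain ⟨j, c, hc, rfl⟩ := WfDvdMonoid.max_power_factor hk hq.irreducible
    have e : q ^ i * b * (q ^ j * c) ^ 6 = q ^ (i + 6 * j) * (b * c ^ 6) := by ring
    rw [e] at hE
    have h6 := cnt_six h36 hq h1 hqQ
      (fun e => (hq.dvd_or_dvd e).elim hb fun e => hc (hq.dvd_of_dvd_pow e)) hE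
    have i6 : i < 6 := by
      by_contra h
      exact hf q hq ((pow_dvd_pow q (not_lt.1 h)).mul_right b)
    have i0 : i = 0 := by omega
    rw [i0, pow_zero, one_mul] at hqa
    exact hb hqa
  refine ⟨a, k, rfl, (UniqueFactorizationMonoid.dvd_iff_emultiplicity_le ha).2 fun p hp => ?_⟩
  by_cases hpa : p ∣ a
  · have h5 : ((5 : ℕ) : ℕ∞) ≤ emultiplicity p (Q ^ 5) :=
      le_emultiplicity_of_pow_dvd (pow_dvd_pow_of_dvd (key p hp hpa) 5)
    have h6 : emultiplicity p a < ((6 : ℕ) : ℕ∞) := emultiplicity_lt_iff_not_dvd.2 (hf p hp)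
    exact le_trans (Order.le_of_lt_add_one (by exact_mod_cast h6)) h5
  · rw [emultiplicity_eq_zero.2 hpa]; exact zero_le

theorem pCnt : S_Cnt := by
  intro Q hQ h36
  have hQ5 : Q ^ 5 ≠ 0 := pow_ne_zero 5 hQ
  have hN := N_pos_real hQ5
  refine ⟨16 * N (Q ^ 5) * 16, by positivity, fun y s hy hs => ?_⟩
  have hy0 : 0 ≤ y ^ (1 / 6 : ℝ) := by positivity
  set A := (ball (N (Q ^ 5))).erase 0
  set K := (ball (y ^ (1 / 6 : ℝ))).erase 0
  have hsub : s ⊆ (A ×ˢ K).image fun z => z.1 * z.2 ^ 6 := fun m hm => by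
    obtain ⟨h0, hN, hE⟩ := hs m hm
    obtain ⟨a, k, rfl, hd⟩ := cnt_dec hQ h36 h0 hE
    have ha : a ≠ 0 := left_ne_zero_of_mul h0
    have hk : k ≠ 0 := by rintro rfl; simp at h0
    refine Finset.mem_image.2 ⟨(a, k), Finset.mem_product.2 ⟨?_, ?_⟩, rfl⟩
    · exact Finset.mem_erase.2 ⟨ha, mem_ball.2 (by exact_mod_cast N_le_of_dvd hd hQ5)⟩
    · refine Finset.mem_erase.2 ⟨hk, mem_ball.2 ?_⟩
      have h1 : (N k : ℝ) ^ 6 ≤ y := by
        refine le_trans ?_ hN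
        have := N_le_of_dvd (dvd_mul_left (k ^ 6) a) h0
        rw [map_pow] at this
        exact_mod_cast this
      have h2 : (N k : ℝ) = ((N k : ℝ) ^ 6) ^ (1 / 6 : ℝ) := by
        rw [← Real.rpow_natCast, ← Real.rpow_mul (by positivity)]; norm_num
      rw [h2]
      exact Real.rpow_le_rpow (by positivity) h1 (by norm_num)
  have h1 : s.card ≤ A.card * K.card :=
    (Finset.card_le_card hsub).trans (Finset.card_image_le.trans (Finset.card_product _ _).le)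
  have h2 : (s.card : ℝ) ≤ A.card * K.card := by exact_mod_cast h1
  refine h2.trans ((mul_le_mul (card_ball_erase_le hN.le) (card_ball_erase_le hy0)
    (by positivity) (by positivity)).trans (le_of_eq (by ring)))

end Pool.Agent.P.MP_323ce2_nt.QR
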