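import Pool.Agent.P.MP_323ce2_nt.QR.St

/-! Two flips remove the growth factor. -/

namespace Pool.Agent.P.MP_323ce2_nt.QR

open Pool.Agent.P.MP_26a8c3_nt Pool.Agent.P.MP_26a8c3_nt.QO Pool.Agent.P.MP_26a8c3_nt.QA
open Pool.Agent.P.MP_323ce2_nt.QZ Pool.Agent.P.MP_323ce2_nt.QF
open scoped Classical

namespace DAux

variable {D : Type}

lemma swap {Q : O} {d : PD D} {g : ℝ → ℝ → ℝ → ℝ} {j i : ℕ} (h : HG Q d g j i) :
    HG Q d (fun M a b => g M b a) j i := by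
  obtain ⟨c, δ₀, hc, h0, h1, h⟩ := h
  refine ⟨c, δ₀, hc, h0, h1, fun δ hδ hδ' => ?_⟩
  obtain ⟨C, A, hC, h⟩ := h δ hδ hδ'
  refine ⟨C, A, hC, fun K M η Y₁ Y₂ t₁ t₂ x ν₁ ν₂ s hK hM hx n1 n2 y1 y2 ha hs => ?_⟩
  have ha' : Adm M η Y₂ Y₁ := ⟨ha.1, by
    rcases ha.2 with e | e | e
    exacts [Or.inr (Or.inl e), Or.inl e, Or.inr (Or.inr e)]⟩
  have := h K M η Y₂ Y₁ t₂ t₁ x ν₂ ν₁ s hK hM hx n2 n1 y2 y1 ha' hs
  rw [ht_comm t₂ t₁, mul_comm Y₂ Y₁] at this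
  refine le_trans (le_of_eq (Finset.sum_congr rfl fun m _ => ?_)) this
  rw [mul_comm (Lm ν₁ m Y₁ t₁)]

lemma flip2 (h3 : S_F3) {Q : O} (hQ0 : Q ≠ 0) (hQ : 36 ∣ Q) {d : PD D} {j i : ℕ}
    (g : ℝ → ℝ → ℝ) (hg : ∀ M Y, 0 < Y → 1 ≤ g M Y)
    (h : HG Q d (fun M a b => g M a * (1 + b / √M)) j i) : HG Q d (fun M a _ => g M a) j i := by
  obtain ⟨c, δ₀, hc, h0, h1, h⟩ := h
  refine ⟨c + 2, δ₀, by linarith, h0, h1, fun δ hδ hδ' => ?_⟩
  obtain ⟨C, A, hC, h⟩ := h δ hδ hδ'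
  obtain ⟨C₃, k, hC₃, h3⟩ := h3 Q hQ0 hQ δ A hδ
  refine ⟨C * (2 ^ A + C₃), A + k, by positivity,
    fun K M η Y₁ Y₂ t₁ t₂ x ν₁ ν₂ s hK hM hx n1 n2 y1 y2 ha hs => ?_⟩
  have hL : 1 ≤ d.L x := (d.len i K x hx).1
  have hL0 : 0 < d.L x := one_pos.trans_le hL
  have hK0 : 0 < K := by linarith
  have hM0 : 0 < M := by linarith
  have hKM : 1 ≤ K * M := by nlinarith
  have hS : 1 ≤ √M := Real.one_le_sqrt.2 hM
  have hS0 : 0 < √M := by linarith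
  have hSS : √M * √M = M := Real.mul_self_sqrt hM0.le
  have hg1 := hg M Y₁ y1
  have hh := one_le_ht t₁ t₂
  have hhg : 1 ≤ ht t₁ t₂ * g M Y₁ := by nlinarith
  have hη : 0 ≤ η := by linarith [ha.1]
  have hT := TT_pos (P := d.L x) hM0 hη hL0.le
  set T : ℝ := TT M η (d.L x) * (1 + M / K ^ (6 * j)) ^ 9 with hTdef
  have hT0 : 0 ≤ T := by positivity
  have hsplit : (K * M) ^ ((c + 2) * δ) = (K * M) ^ (c * δ) * (K * M) ^ (2 * δ) := by
    rw [← Real.rpow_add (by positivity)]; congr 1; ring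
  have hP : 0 ≤ (K * M) ^ (c * δ) := by positivity
  have hP2 : 1 ≤ (K * M) ^ (2 * δ) := Real.one_le_rpow hKM (by positivity)
  show _ ≤ C * (2 ^ A + C₃) * K ^ 54 * (K * M) ^ ((c + 2) * δ) * (ht t₁ t₂ * g M Y₁) ^ (A + k) *
    (Y₁ * Y₂ * d.L x) ^ (1 + δ) * T
  rw [hsplit, pow_add]
  set H : ℝ := ht t₁ t₂ * g M Y₁ with hH
  have hHk : 1 ≤ H ^ k := one_le_pow₀ hhg
  have hHA : 0 ≤ H ^ A := by positivity
  rcases le_or_gt Y₂ (√M) with hY | hY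
  · refine (h K M η Y₁ Y₂ t₁ t₂ x ν₁ ν₂ s hK hM hx n1 n2 y1 y2 ha hs).trans ?_
    have e1 : (ht t₁ t₂ * (g M Y₁ * (1 + Y₂ / √M))) ^ A ≤ 2 ^ A * H ^ A := by
      rw [← mul_pow]
      refine pow_le_pow_left₀ (by positivity) ?_ A
      have : Y₂ / √M ≤ 1 := (div_le_one hS0).2 hY
      rw [← mul_assoc, ← hH]
      nlinarith
    have hZ : 0 ≤ (Y₁ * Y₂ * d.L x) ^ (1 + δ) := by positivity
    calc C * K ^ 54 * (K * M) ^ (c * δ) * (ht t₁ t₂ * (g M Y₁ * (1 + Y₂ / √M))) ^ A *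
          (Y₁ * Y₂ * d.L x) ^ (1 + δ) * T
        ≤ C * K ^ 54 * (K * M) ^ (c * δ) * (2 ^ A * H ^ A) * (Y₁ * Y₂ * d.L x) ^ (1 + δ) * T := by
          gcongr
      _ = C * 2 ^ A * K ^ 54 * ((K * M) ^ (c * δ) * 1) * (H ^ A * 1) *
          (Y₁ * Y₂ * d.L x) ^ (1 + δ) * T := by ring
      _ ≤ _ := by
          have : (2 : ℝ) ^ A ≤ 2 ^ A + C₃ := by linarith
          gcongr
  · have hX : 1 ≤ Y₂ := by linarith
    set b : ℝ := C * K ^ 54 * (K * M) ^ (c * δ) * ((1 + |t₁|) * g M Y₁) ^ A *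
      (Y₁ * d.L x) ^ (1 + δ) * T with hb
    have hb0 : 0 ≤ b := by positivity
    have hw : ∀ (Y v : ℝ) (m : O), ‖Lm ν₁ m Y₁ t₁ * Lm ν₂ m Y v * d.F x m‖ ^ 2 =
        ‖Lm ν₁ m Y₁ t₁ * d.F x m‖ ^ 2 * ‖Lm ν₂ m Y v‖ ^ 2 := fun Y v m => by
      rw [← mul_pow, ← norm_mul, mul_right_comm]
    have key := h3 O s (fun _ => ν₂) id (fun m => ‖Lm ν₁ m Y₁ t₁ * d.F x m‖ ^ 2) M Y₂ t₂ b hM hX hb0
      (fun m hm => ⟨n2, (hs m hm).1, rad_self (hs m hm).1 (hs m hm).2.1,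
        fun e => (hs m hm).2.2 ⟨ν₂, n2, e⟩, by positivity⟩)
      (fun Y v hY0 => by
        have ha' : Adm M η Y₁ Y := ⟨ha.1, by
          rcases ha.2 with e | e | e
          · exact Or.inl e
          · exact Or.inr (Or.inr (by nlinarith))
          · exact Or.inr (Or.inr e)⟩
        have := h K M η Y₁ Y t₁ v x ν₁ ν₂ s hK hM hx n1 n2 y1 hY0 ha' hs
        simp only [hw] at this
        refine this.trans ?_
        have e0 : Y / √M ≤ Y * Y₂ / M := by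
          rw [div_le_div_iff₀ hS0 hM0]
          have : Y * (√M * √M) ≤ Y * (Y₂ * √M) := by gcongr
          rw [hSS] at this
          linarith
        have e1 : (ht t₁ v * (g M Y₁ * (1 + Y / √M))) ^ A ≤
            ((1 + |t₁|) * g M Y₁) ^ A * (1 + Y * Y₂ / M) ^ A * (1 + |v|) ^ A := by
          rw [← mul_pow, ← mul_pow]
          refine pow_le_pow_left₀ (by have := ht_pos t₁ v; positivity) ?_ A
          calc ht t₁ v * (g M Y₁ * (1 + Y / √M))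
              ≤ ((1 + |t₁|) * (1 + |v|)) * (g M Y₁ * (1 + Y * Y₂ / M)) := by
                have := ht_le t₁ v
                gcongr
            _ = _ := by ring
        have e2 : (Y₁ * Y * d.L x) ^ (1 + δ) = (Y₁ * d.L x) ^ (1 + δ) * Y ^ (1 + δ) := by
          rw [← Real.mul_rpow (by positivity) hY0.le]; congr 1; ring
        rw [e2]
        calc C * K ^ 54 * (K * M) ^ (c * δ) * (ht t₁ v * (g M Y₁ * (1 + Y / √M))) ^ A *
              ((Y₁ * d.L x) ^ (1 + δ) * Y ^ (1 + δ)) * T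
            ≤ C * K ^ 54 * (K * M) ^ (c * δ) *
              (((1 + |t₁|) * g M Y₁) ^ A * (1 + Y * Y₂ / M) ^ A * (1 + |v|) ^ A) *
              ((Y₁ * d.L x) ^ (1 + δ) * Y ^ (1 + δ)) * T := by gcongr
          _ = _ := by rw [hb]; ring)
    simp only [hw]
    refine key.trans ?_
    have e1 : (1 + |t₂|) ^ k ≤ H ^ k := by
      refine pow_le_pow_left₀ (by positivity) ?_ k
      have := le_ht_right t₁ t₂
      rw [hH]; nlinarith
    have e2 : ((1 + |t₁|) * g M Y₁) ^ A ≤ H ^ A := by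
      refine pow_le_pow_left₀ (by positivity) ?_ A
      have := le_ht_left t₁ t₂
      rw [hH]; gcongr
    have e3 : M ^ (2 * δ) ≤ (K * M) ^ (2 * δ) :=
      Real.rpow_le_rpow hM0.le (by nlinarith) (by positivity)
    have e4 : Y₂ ≤ Y₂ ^ (1 + δ) := by
      conv_lhs => rw [← Real.rpow_one Y₂]
      exact Real.rpow_le_rpow_of_exponent_le hX (by linarith)
    have e5 : (Y₁ * Y₂ * d.L x) ^ (1 + δ) = (Y₁ * d.L x) ^ (1 + δ) * Y₂ ^ (1 + δ) := by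
      rw [← Real.mul_rpow (by positivity) y2.le]; congr 1; ring
    rw [e5, hb]
    calc C₃ * (1 + |t₂|) ^ k * M ^ (2 * δ) * (C * K ^ 54 * (K * M) ^ (c * δ) *
          ((1 + |t₁|) * g M Y₁) ^ A * (Y₁ * d.L x) ^ (1 + δ) * T) * Y₂
        ≤ (2 ^ A + C₃) * H ^ k * (K * M) ^ (2 * δ) * (C * K ^ 54 * (K * M) ^ (c * δ) *
          H ^ A * (Y₁ * d.L x) ^ (1 + δ) * T) * Y₂ ^ (1 + δ) := by
          have : C₃ ≤ 2 ^ A + C₃ := by
            have : (0 : ℝ) ≤ 2 ^ A := by positivity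
            linarith
          gcongr
      _ = _ := by ring

end DAux

theorem pD (h3 : QF.S_F3) : S_D := by
  intro D d Q j i hQ0 hQ h
  have h1 := DAux.flip2 h3 hQ0 hQ (fun M a => 1 + a / √M)
    (fun M Y hY => by have : 0 ≤ Y / √M := by positivity
                      linarith) h
  have h2 := DAux.swap h1
  refine DAux.flip2 h3 hQ0 hQ (fun _ _ => 1) (fun _ _ _ => le_rfl) ?_
  simpa only [one_mul] using h2

end Pool.Agent.P.MP_323ce2_nt.QR
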