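import Pool.Agent.P.MP_323ce2_nt.QR.St

/-! The main term at an exceptional element for an arbitrary character. -/

namespace Pool.Agent.P.MP_323ce2_nt.QR

open Pool.Agent.P.MP_26a8c3_nt Pool.Agent.P.MP_26a8c3_nt.QO Pool.Agent.P.MP_26a8c3_nt.QA
open Pool.Agent.P.MP_323ce2_nt.QZ Pool.Agent.P.MP_323ce2_nt.QF
open scoped Classical ComplexConjugate
open Finset

namespace MainAux

lemma norm_Wt1 {X : ℝ} (hX : 0 < X) (t : ℝ) : ‖Wt X t 1‖ ≤ 4 * X := by
  have h := norm_Wt X t 1 0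
  simp only [Complex.ofReal_one, Complex.ofReal_zero, zero_mul, add_zero, one_mul, zero_add,
    one_pow] at h
  rw [h, Real.exp_add, Real.exp_log hX]
  have a : √Real.pi ≤ 2 := Real.sqrt_le_iff.2 ⟨by norm_num, by linarith [Real.pi_le_four]⟩
  have b : Real.exp ((1 - t ^ 2) / 4) ≤ 2 := by
    have c : Real.exp ((1 - t ^ 2) / 4) ≤ Real.exp (1 / 4) :=
      Real.exp_le_exp.2 (by nlinarith [sq_nonneg t])
    have d := Real.exp_bound_div_one_sub_of_interval (x := 1 / 4) (by norm_num) (by norm_num)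
    linarith
  calc _ ≤ 2 * (X * 2) := by gcongr
    _ = _ := by ring

lemma Wt_div {X d : ℝ} (hX : 0 < X) (hd : 0 < d) (t : ℝ) :
    (d : ℂ) ^ ((t : ℂ) * Complex.I) * Wt (X / d) t 1 = Wt X t 1 / d := by
  have e : (d : ℂ) = Complex.exp (Real.log d) := by
    rw [← Complex.ofReal_exp, Real.exp_log hd]
  rw [cpow_eq hd, Wt, Wt, Real.log_div hX.ne' hd.ne', mul_left_comm, ← Complex.exp_add,
    mul_div_assoc]
  conv_rhs => rw [e, ← Complex.exp_sub]
  congr 2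
  push_cast
  ring

lemma base (h0 : S_F0) (h1 : S_F1) {Q : O} (hQ : Q ≠ 0) (h36 : 36 ∣ Q) :
    ∃ (C : ℝ) (k : ℕ), 0 < C ∧ ∀ ρ, IsNu Q ρ → ∃ κ : ℂ, ‖κ‖ ≤ C ∧ ∀ X t : ℝ, 0 < X →
      ‖Lm ρ 1 X t - κ * Wt X t 1‖ ≤ C * (1 + |t|) ^ k * min 1 X := by
  obtain ⟨δ, hδ⟩ := h0 Q hQ h36
  obtain ⟨C0, k0, hC0, H0⟩ := hδ 1 one_pos
  obtain ⟨C1, k1, hC1, H1⟩ := h1 Q hQ h36 0
  have hR : Rad 1 1 := rad_self one_ne_zero (by simp)
  obtain ⟨a1, a2, a3⟩ := H0 1 1 one_ne_zero hR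
  rw [Real.one_rpow] at a1
  have a0 : 0 < δ 1 := (mul_pos_iff_of_pos_left hC0).1 (one_pos.trans_le a1)
  have hK := one_le_KO
  refine ⟨C0 + C1 + 3 * KO + 16, k0 + k1, by positivity, fun ρ hρ => ?_⟩
  have small : ∀ κ : ℂ, ‖κ‖ ≤ 4 → ∀ X t : ℝ, 0 < X → X ≤ 1 → ‖Lm ρ 1 X t - κ * Wt X t 1‖ ≤
      (C0 + C1 + 3 * KO + 16) * (1 + |t|) ^ (k0 + k1) * min 1 X := by
    intro κ hκ X t hX hX1
    have b1 := norm_Wsum_le (b1_L hρ 1) hX t (k := 2) (by norm_num)
    have b2 : Real.exp (2 ^ 2 / 4) ≤ 3 := by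
      rw [show (2 : ℝ) ^ 2 / 4 = 1 by norm_num]; linarith [Real.exp_one_lt_d9]
    have b3 : X ^ (2 : ℝ) ≤ X := by rw [Real.rpow_two]; nlinarith
    have b4 : ‖Lm ρ 1 X t‖ ≤ KO * (3 * X) := b1.trans (by gcongr)
    have b5 : ‖κ * Wt X t 1‖ ≤ 4 * (4 * X) := by
      rw [norm_mul]
      exact mul_le_mul hκ (norm_Wt1 hX t) (norm_nonneg _) (by norm_num)
    have b6 : (1 : ℝ) ≤ (1 + |t|) ^ (k0 + k1) := one_le_pow₀ (by linarith [abs_nonneg t])
    rw [min_eq_right hX1]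
    refine (norm_sub_le _ _).trans ?_
    calc _ ≤ (C0 + C1 + 3 * KO + 16) * 1 * X := by nlinarith [mul_pos hC0 hX, mul_pos hC1 hX]
      _ ≤ _ := by gcongr
  by_cases he : Exc Q ρ 1
  · have hκ : ‖((δ 1 : ℝ) : ℂ)‖ ≤ 4 := by rwa [Complex.norm_real, Real.norm_of_nonneg a0.le]
    refine ⟨δ 1, hκ.trans (by linarith), fun X t hX => ?_⟩
    rcases le_total X 1 with hX1 | hX1
    · exact small _ hκ X t hX hX1
    · refine (a3 ρ X t hρ he hX).trans ?_
      rw [Real.one_rpow, min_eq_left hX1]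
      have := abs_nonneg t
      gcongr <;> linarith
  · refine ⟨0, by rw [norm_zero]; positivity, fun X t hX => ?_⟩
    rcases le_total X 1 with hX1 | hX1
    · exact small _ (by simp) X t hX hX1
    · rw [zero_mul, sub_zero]
      refine (H1 ρ 1 1 X t hρ one_ne_zero hR he hX1).trans ?_
      rw [one_pow, pow_zero, mul_one, min_eq_left hX1]
      have := abs_nonneg t
      gcongr <;> linarith

lemma ph_eq {Q m n : O} {ν ν₀ : O → ℂ} (hν : IsNu Q ν) (h0 : IsNu Q ν₀) (he : Exc Q ν₀ m)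
    (hm : m ≠ 0) (hn : Primary n) :
    ph ν m n = ∑ e ∈ pdiv m, mu e * if e ∣ n then ν n * conj (ν₀ n) else 0 := by
  have e1 : (pdiv n).filter (· ∣ m) = (pdiv m).filter (· ∣ n) := by
    ext x
    rw [mem_filter, mem_filter, mem_pdiv hn.ne_zero, mem_pdiv hm]
    tauto
  have e2 : ph ν m n = cop n m * (ν n * conj (ν₀ n)) := by
    by_cases hc : IsCoprime m n
    · by_cases hq : IsCoprime n Q
      · have a := he n hn (hq.mul_right hc.symm)
        have b := h0.mul_conj hq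
        rw [ph] at a
        rw [ph, cop_of hc, one_mul]
        congr 1
        linear_combination (conj (ν₀ n)) * a - psi n m * b
      · simp [ph, hν.zero n hq]
    · rw [ph, (psi_eq_zero hn.ne_zero).2 hc, cop_of_not hc]
      simp
  rw [e2, ← mu_sum hn, e1, sum_filter, sum_mul]
  exact sum_congr rfl fun e _ => by split_ifs <;> simp

lemma Lm_eq {Q m : O} {ν ν₀ : O → ℂ} (hν : IsNu Q ν) (h0 : IsNu Q ν₀) (he : Exc Q ν₀ m)
    (hm : m ≠ 0) {X : ℝ} (hX : 0 < X) (t : ℝ) :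
    Lm ν m X t = ∑ e ∈ pdiv m, mu e * (ν e * conj (ν₀ e) * (((N e : ℝ) : ℂ) ^ ((t : ℂ) * Complex.I) *
      Lm (fun x => ν x * conj (ν₀ x)) 1 (X / N e) t)) := by
  set ρ : O → ℂ := fun x => ν x * conj (ν₀ x) with hρ
  have hρ' : IsNu Q ρ := hν.mul' h0.conj' dvd_rfl
  set f : O → ℂ := fun n => uL (ph ρ 1) n * W X t (nr n) with hf
  have hs : Summable f :=
    (summable_W0 nr_pos (QB.summable_bd (b1_L hρ' 1)) hX t).of_norm
  have e : ∀ n, uL (ph ν m) n * W X t (nr n) = ∑ e ∈ pdiv m, mu e * if e ∣ n then f n else 0 := by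
    intro n
    by_cases hn : Primary n
    · simp only [hf, uL, if_pos hn]
      rw [ph_eq hν h0 he hm hn, sum_mul]
      refine sum_congr rfl fun e _ => ?_
      split_ifs <;> simp [ph, hρ, mul_assoc]
    · simp [hf, uL, hn]
  rw [Lm, Wsum]
  simp only [e]
  rw [Summable.tsum_finsetSum fun d _ => Summable.mul_left _ (hs.indicator {t | d ∣ t} |>.congr
    fun t => by simp [Set.indicator_apply])]
  refine sum_congr rfl fun d hd => ?_
  have hd' := ((mem_pdiv hm).1 hd).1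
  rw [tsum_mul_left, tsum_ite_dvd0 hd'.ne_zero, Lm, Wsum, ← tsum_mul_left (a := (_ : ℂ) ^ _),
    ← tsum_mul_left (a := ν d * _)]
  congr 1
  refine tsum_congr fun y => ?_
  by_cases hy : Primary y
  · simp only [hf, uL, if_pos hy, if_pos (hd'.mul hy), ph, psi_one, mul_one]
    rw [QB.nr_mul hd'.ne_zero hy.ne_zero, W_mul hX (N_pos_real hd'.ne_zero) (nr_pos y), hρ'.mul]
    ring
  · simp [hf, uL, hy, show ¬ Primary (d * y) from fun h => hy (h.of_mul hd')]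

end MainAux

open MainAux

theorem pMain (h0 : S_F0) (h1 : S_F1) : S_Main := by
  intro Q hQ h36
  obtain ⟨C, k, hC, H⟩ := base h0 h1 hQ h36
  refine ⟨C, k, hC, fun ν m hν hm ⟨ν₀, hν₀, he⟩ => ?_⟩
  have hρ : IsNu Q fun x => ν x * conj (ν₀ x) := hν.mul' hν₀.conj' dvd_rfl
  obtain ⟨κ, hκ, Hκ⟩ := H _ hρ
  have hN : ∀ e ∈ pdiv m, (1 : ℝ) ≤ N e := fun e he' => one_le_N ((mem_pdiv hm).1 he').1.ne_zero
  refine ⟨∑ e ∈ pdiv m, mu e * (ν e * conj (ν₀ e) * (κ / ((N e : ℝ) : ℂ))), ?_, fun X t hX => ?_⟩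
  · refine (norm_sum_le _ _).trans ((sum_le_card_nsmul _ _ C fun e he' => ?_).trans ?_)
    · rw [norm_mul, norm_mul, norm_div, Complex.norm_real, Real.norm_of_nonneg (Nat.cast_nonneg _)]
      have a := norm_mu_le e
      have b := hρ.le e
      have c : ‖κ‖ / (N e : ℝ) ≤ C := (div_le_self (norm_nonneg _) (hN e he')).trans hκ
      calc _ ≤ 1 * (1 * C) := by gcongr
        _ = _ := by ring
    · rw [nsmul_eq_mul, dv, mul_comm]
  · rw [Lm_eq hν hν₀ he hm hX, sum_mul, ← sum_sub_distrib]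
    refine (norm_sum_le _ _).trans ((sum_le_card_nsmul _ _ (C * (1 + |t|) ^ k * min 1 X)
      fun e he' => ?_).trans ?_)
    · have hN0 : (0 : ℝ) < N e := one_pos.trans_le (hN e he')
      have e1 : mu e * (ν e * conj (ν₀ e) * (((N e : ℝ) : ℂ) ^ ((t : ℂ) * Complex.I) *
            Lm (fun x => ν x * conj (ν₀ x)) 1 (X / N e) t)) -
          mu e * (ν e * conj (ν₀ e) * (κ / ((N e : ℝ) : ℂ))) * Wt X t 1 =
          mu e * (ν e * conj (ν₀ e) * (((N e : ℝ) : ℂ) ^ ((t : ℂ) * Complex.I) *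
            (Lm (fun x => ν x * conj (ν₀ x)) 1 (X / N e) t - κ * Wt (X / N e) t 1))) := by
        have := Wt_div hX hN0 t
        linear_combination (mu e * (ν e * conj (ν₀ e)) * κ) * this
      rw [e1, norm_mul, norm_mul, norm_mul, norm_mul (_ ^ _), norm_cpow_I hN0, ← norm_mul]
      have a := norm_mu_le e
      have b := hρ.le e
      have c := Hκ (X / N e) t (by positivity)
      have d : min 1 (X / N e) ≤ min 1 X := min_le_min_left _ (div_le_self hX.le (hN e he'))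
      have c' := c.trans (mul_le_mul_of_nonneg_left d (by positivity))
      calc _ ≤ 1 * (1 * (1 * (C * (1 + |t|) ^ k * min 1 X))) := by gcongr
        _ = _ := by ring
    · rw [nsmul_eq_mul, dv]
      exact le_of_eq (by ring)

end Pool.Agent.P.MP_323ce2_nt.QR
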