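import Pool.Agent.P.MP_323ce2_nt.QR.St

/-! The maximal form of the mean value bound. -/

namespace Pool.Agent.P.MP_323ce2_nt.QR

open Pool.Agent.P.MP_26a8c3_nt Pool.Agent.P.MP_26a8c3_nt.QO Pool.Agent.P.MP_26a8c3_nt.QA
open Pool.Agent.P.MP_323ce2_nt.QZ Pool.Agent.P.MP_323ce2_nt.QF
open scoped Classical ComplexConjugate

lemma mx_adm {M y η e Y₁ Y₂ X₁ X₂ : ℝ} (hM : 1 ≤ M) (hy : 1 ≤ y) (he : 1 ≤ e)
    (h : Adm M η Y₁ Y₂) (h1 : X₁ ≤ e * Y₁) (h2 : X₂ ≤ e * Y₂) :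
    Adm y (η * (e * (1 + y / M))) X₁ X₂ := by
  obtain ⟨hη, h⟩ := h
  have hq : 0 ≤ y / M := by positivity
  have hg : e ≤ e * (1 + y / M) := by nlinarith
  have hk : e * η ≤ η * (e * (1 + y / M)) := by nlinarith
  refine ⟨by nlinarith, ?_⟩
  rcases h with h | h | h
  · exact Or.inl (by nlinarith)
  · exact Or.inr (Or.inl (by nlinarith))
  · refine Or.inr (Or.inr ?_)
    have h3 : 1 + y / M ≤ e * (1 + y / M) := by nlinarith
    have h4 : y / M ≤ (e * (1 + y / M)) ^ 2 := by nlinarith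
    calc y = M * (y / M) := by field_simp
      _ ≤ η ^ 2 * (e * (1 + y / M)) ^ 2 := mul_le_mul h h4 hq (by positivity)
      _ = _ := by ring

lemma mx_TT {y η P g : ℝ} (hy : 0 ≤ y) (hη : 0 ≤ η) (hP : 0 ≤ P) (hg : 1 ≤ g) :
    TT y (η * g) P ≤ g * TT y η P := by
  unfold TT
  have h1 : g ^ (2 / 3 : ℝ) ≤ g := by
    simpa using Real.rpow_le_rpow_of_exponent_le hg (show (2 / 3 : ℝ) ≤ 1 by norm_num)
  have h2 : (y * (η * g)) ^ (2 / 3 : ℝ) ≤ (y * η) ^ (2 / 3 : ℝ) * g := by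
    rw [← mul_assoc, Real.mul_rpow (by positivity) (by linarith)]
    exact mul_le_mul_of_nonneg_left h1 (by positivity)
  have h3 := mul_le_mul_of_nonneg_left h2 hP
  nlinarith

lemma mx_ht {t₁ t₂ u₁ u₂ : ℝ} (h1 : |u₁ - t₁| ≤ 4) (h2 : |u₂ - t₂| ≤ 4) :
    ht u₁ u₂ ≤ 9 * ht t₁ t₂ := by
  have a1 := abs_sub_abs_le_abs_sub u₁ t₁
  have a2 := abs_sub_abs_le_abs_sub u₂ t₂
  have := abs_nonneg t₁
  have := abs_nonneg t₂
  unfold ht
  linarith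

lemma mx_fin {K M y η P e a δ W : ℝ} {i : ℕ} (hK : 2 ≤ K) (hM : 1 ≤ M) (hy : 1 ≤ y) (hη : 1 ≤ η)
    (he : 1 ≤ e) (hP : 1 ≤ P) (hPK : P ≤ K ^ i) (ha : 0 ≤ a) (ha1 : a ≤ 1) (hδ : 0 < δ)
    (hW : 0 < W) :
    (K * y) ^ a * P ^ (1 + 2 * δ) * (TT y (η * (e * (1 + y / M))) P * (1 + y / W) ^ 9) ≤
      e * (K * M) ^ (a + i * δ) * (1 + M / W) ^ 9 * (TT y η P * (1 + y / M) ^ 11) *
        P ^ (1 + δ) := by
  have hq : 0 ≤ y / M := by positivity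
  have hKM : 1 ≤ K * M := by nlinarith
  have h1 : (K * y) ^ a ≤ (K * M) ^ a * (1 + y / M) := by
    have e1 : K * y ≤ K * M * (1 + y / M) := by
      have : K * M * (1 + y / M) = K * M + K * y := by field_simp
      nlinarith
    calc (K * y) ^ a ≤ (K * M * (1 + y / M)) ^ a := Real.rpow_le_rpow (by positivity) e1 ha
      _ = (K * M) ^ a * (1 + y / M) ^ a := Real.mul_rpow (by positivity) (by positivity)
      _ ≤ _ := by
        refine mul_le_mul_of_nonneg_left ?_ (by positivity)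
        simpa using Real.rpow_le_rpow_of_exponent_le (show 1 ≤ 1 + y / M by linarith) ha1
  have h2 : P ^ (1 + 2 * δ) ≤ P ^ (1 + δ) * (K * M) ^ (i * δ) := by
    rw [show 1 + 2 * δ = (1 + δ) + δ by ring, Real.rpow_add (by linarith)]
    refine mul_le_mul_of_nonneg_left ?_ (by positivity)
    rw [Real.rpow_natCast_mul (by positivity)]
    refine Real.rpow_le_rpow (by linarith) (hPK.trans ?_) hδ.le
    exact pow_le_pow_left₀ (by linarith) (by nlinarith) i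
  have h3 := mx_TT (y := y) (η := η) (P := P) (g := e * (1 + y / M)) (by linarith) (by linarith)
    (by linarith) (by nlinarith)
  have h4 : (1 + y / W) ^ 9 ≤ ((1 + M / W) * (1 + y / M)) ^ 9 := by
    refine pow_le_pow_left₀ (by positivity) ?_ 9
    have e1 : M / W * (y / M) = y / W := by field_simp
    have : 0 ≤ M / W := by positivity
    nlinarith
  have hT := TT_pos (M := y) (η := η) (P := P) (by linarith) (by linarith) (by linarith)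
  have hT' := TT_pos (M := y) (η := η * (e * (1 + y / M))) (P := P) (by linarith) (by positivity)
    (by linarith)
  calc _ ≤ ((K * M) ^ a * (1 + y / M)) * (P ^ (1 + δ) * (K * M) ^ (i * δ)) *
        ((e * (1 + y / M) * TT y η P) * ((1 + M / W) * (1 + y / M)) ^ 9) := by gcongr
    _ = _ := by
      rw [Real.rpow_add (show 0 < K * M by positivity), mul_pow]
      generalize 1 + y / M = g
      generalize 1 + M / W = w
      generalize P ^ (1 + δ) = p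
      ring

theorem pMX (h : S_Mx) : S_MX := by
  intro D d Q j i hH
  obtain ⟨c, δ₀, hc, hδ₀, hδ₁, hH⟩ := hH
  refine ⟨2 * c + i, min (δ₀ / 2) (1 / (2 * c + 1)), by positivity, by positivity,
    (min_le_left _ _).trans (by linarith), fun δ hδ hδ' => ?_⟩
  have hd1 : δ ≤ δ₀ / 2 := hδ'.trans (min_le_left _ _)
  have hd2 : δ * (2 * c + 1) ≤ 1 := (le_div_iff₀ (by positivity)).1 (hδ'.trans (min_le_right _ _))
  obtain ⟨C, A, hC, hH⟩ := hH (2 * δ) (by linarith) (by linarith)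
  obtain ⟨Cm, hCm, hm⟩ := h δ hδ (by linarith)
  have he : 1 ≤ Real.exp 2 := Real.one_le_exp (by norm_num)
  refine ⟨Cm * Cm * C * 9 ^ A * Real.exp 2, A, by positivity, ?_⟩
  intro K M y η Y₁ Y₂ t₁ t₂ x ν₁ ν₂ s ξ₁ ξ₂ hK hM hy hx h1 h2 hY₁ hY₂ hA hs hξ
  obtain ⟨hP, hPK⟩ := d.len i K x hx
  have hη := hA.1
  have hht := ht_pos t₁ t₂
  have hT' := TT_pos (M := y) (η := η * (Real.exp 2 * (1 + y / M))) (P := d.L x) (by linarith)
    (by positivity) (by linarith)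
  obtain ⟨B, hB⟩ : ∃ B : ℝ, B = C * K ^ 54 * (9 * ht t₁ t₂) ^ A *
      ((K * y) ^ (c * (2 * δ)) * d.L x ^ (1 + 2 * δ) *
        (TT y (η * (Real.exp 2 * (1 + y / M))) (d.L x) * (1 + y / K ^ (6 * j)) ^ 9)) := ⟨_, rfl⟩
  have hB0 : 0 ≤ B := by rw [hB]; positivity
  have key : ∀ X₁ u₁ X₂ u₂ : ℝ, 0 < X₁ → X₁ ≤ Real.exp 2 * Y₁ → |u₁ - t₁| ≤ 4 → 0 < X₂ →
      X₂ ≤ Real.exp 2 * Y₂ → |u₂ - t₂| ≤ 4 →
      ∑ m ∈ s, ‖Lm ν₁ m X₁ u₁ * d.F x m‖ ^ 2 * ‖Wsum (uL (ph ν₂ m)) X₂ u₂‖ ^ 2 ≤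
        B * X₁ ^ (1 + 2 * δ) * X₂ ^ (1 + 2 * δ) := by
    intro X₁ u₁ X₂ u₂ a1 a2 a3 b1 b2 b3
    have h3 := hH K y _ X₁ X₂ u₁ u₂ x ν₁ ν₂ s hK hy hx h1 h2 a1 b1 (mx_adm hM hy he hA a2 b2) hs
    have h4 := mx_ht a3 b3
    have h5 := ht_pos u₁ u₂
    calc _ = ∑ m ∈ s, ‖Lm ν₁ m X₁ u₁ * Lm ν₂ m X₂ u₂ * d.F x m‖ ^ 2 := by
          refine Finset.sum_congr rfl fun m _ => ?_
          simp only [Lm, norm_mul]
          ring
      _ ≤ _ := h3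
      _ ≤ C * K ^ 54 * (K * y) ^ (c * (2 * δ)) * (9 * ht t₁ t₂) ^ A *
          (X₁ * X₂ * d.L x) ^ (1 + 2 * δ) *
          (TT y (η * (Real.exp 2 * (1 + y / M))) (d.L x) * (1 + y / K ^ (6 * j)) ^ 9) := by
          simp only [mul_one]
          gcongr
      _ = _ := by
          rw [hB, Real.mul_rpow (mul_pos a1 b1).le (zero_le_one.trans hP),
            Real.mul_rpow a1.le b1.le]
          generalize 1 + y / K ^ (6 * j) = g
          generalize 1 + 2 * δ = p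
          ring
  have inner : ∀ X₁ u₁ : ℝ, 0 < X₁ → X₁ ≤ Real.exp 2 * Y₁ → |u₁ - t₁| ≤ 4 →
      ∑ m ∈ s, ‖Lm ν₂ m (ξ₂ m) t₂ * d.F x m‖ ^ 2 / ξ₂ m ^ (1 + δ) *
        ‖Wsum (uL (ph ν₁ m)) X₁ u₁‖ ^ 2 ≤ Cm * B * Y₂ ^ δ * X₁ ^ (1 + 2 * δ) := by
    intro X₁ u₁ a1 a2 a3
    have h3 := hm s (fun m => ‖Lm ν₁ m X₁ u₁ * d.F x m‖ ^ 2) ξ₂ (fun m => uL (ph ν₂ m)) Y₂ t₂
      (B * X₁ ^ (1 + 2 * δ)) hY₂ (by positivity)
      (fun m hm => ⟨by positivity, (hξ m hm).2.2.1, (hξ m hm).2.2.2, b1_L h2 m⟩)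
      (fun X₂ u₂ b1 b2 b3 => key X₁ u₁ X₂ u₂ a1 a2 a3 b1 b2 b3)
    calc _ = ∑ m ∈ s, ‖Lm ν₁ m X₁ u₁ * d.F x m‖ ^ 2 *
          (‖Wsum (uL (ph ν₂ m)) (ξ₂ m) t₂‖ ^ 2 / ξ₂ m ^ (1 + δ)) := by
          refine Finset.sum_congr rfl fun m _ => ?_
          simp only [Lm, norm_mul]
          ring
      _ ≤ _ := h3
      _ = _ := by ring
  have outer := hm s (fun m => ‖Lm ν₂ m (ξ₂ m) t₂ * d.F x m‖ ^ 2 / ξ₂ m ^ (1 + δ)) ξ₁
    (fun m => uL (ph ν₁ m)) Y₁ t₁ (Cm * B * Y₂ ^ δ) hY₁ (by positivity)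
    (fun m hm => ⟨by have := (hξ m hm).2.2.1; positivity, (hξ m hm).1, (hξ m hm).2.1, b1_L h1 m⟩)
    inner
  have hf := mx_fin (e := Real.exp 2) (a := c * (2 * δ)) (W := K ^ (6 * j)) hK hM hy hη he hP hPK
    (by positivity) (by nlinarith) hδ (by positivity)
  calc _ = ∑ m ∈ s, ‖Lm ν₂ m (ξ₂ m) t₂ * d.F x m‖ ^ 2 / ξ₂ m ^ (1 + δ) *
        (‖Wsum (uL (ph ν₁ m)) (ξ₁ m) t₁‖ ^ 2 / ξ₁ m ^ (1 + δ)) := by
        refine Finset.sum_congr rfl fun m hm => ?_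
        rw [Real.mul_rpow (hξ m hm).1.le (hξ m hm).2.2.1.le]
        simp only [Lm, norm_mul]
        ring
    _ ≤ _ := outer
    _ ≤ Cm * (Cm * (C * K ^ 54 * (9 * ht t₁ t₂) ^ A *
        (Real.exp 2 * (K * M) ^ (c * (2 * δ) + i * δ) * (1 + M / K ^ (6 * j)) ^ 9 *
          (TT y η (d.L x) * (1 + y / M) ^ 11) * d.L x ^ (1 + δ))) * Y₂ ^ δ) * Y₁ ^ δ := by
        rw [hB]
        gcongr
    _ = _ := by
        rw [Real.mul_rpow hY₁.le hY₂.le, show (2 * c + i) * δ = c * (2 * δ) + i * δ by ring, mul_pow]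
        generalize 1 + y / M = g
        generalize 1 + M / K ^ (6 * j) = w
        generalize c * (2 * δ) + i * δ = p
        generalize d.L x ^ (1 + δ) = q
        ring

end Pool.Agent.P.MP_323ce2_nt.QR
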