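import Pool.Agent.P.MP_323ce2_nt.QR.St

/-! The maximal inequality in one scale. -/

namespace Pool.Agent.P.MP_323ce2_nt.QR

open Pool.Agent.P.MP_26a8c3_nt Pool.Agent.P.MP_26a8c3_nt.QO Pool.Agent.P.MP_26a8c3_nt.QA
open Pool.Agent.P.MP_323ce2_nt.QZ Finset

namespace Mx

lemma block {s : Finset O} {wt ξ : O → ℝ} {u : O → O → ℂ} {δ X t β Y : ℝ} (hδ : 0 < δ)
    (hβ : 0 ≤ β) (hs : ∀ m ∈ s, 0 ≤ wt m ∧ 0 < ξ m ∧ ξ m ≤ X ∧ B1 (u m))
    (hb : ∀ X' t' : ℝ, 0 < X' → X' ≤ Real.exp 2 * X → |t' - t| ≤ 4 →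
      ∑ m ∈ s, wt m * ‖Wsum (u m) X' t'‖ ^ 2 ≤ β * X' ^ (1 + 2 * δ))
    (hY : 0 < Y) (hY' : Y ≤ X) {T : Finset O} (hT : T ⊆ s)
    (hξ : ∀ j ∈ T, Y / 2 ≤ ξ j ∧ ξ j ≤ Y) :
    ∑ j ∈ T, wt j * (‖Wsum (u j) (ξ j) t‖ ^ 2 / ξ j ^ (1 + δ)) ≤
      2 ^ (1 + δ) * (2 * Real.exp 8) * Real.exp 2 ^ (1 + 2 * δ) * β * Y ^ δ := by
  have h1 : ∑ j ∈ T, wt j * ‖Wsum (u j) (ξ j) t‖ ^ 2 ≤
      2 * Real.exp 8 * (β * (Real.exp 2 * Y) ^ (1 + 2 * δ)) := by
    refine sup_W (X0 := Y) T (fun j hj => (hs j (hT hj)).1) nr_pos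
      (fun j hj => QB.summable_bd (hs j (hT hj)).2.2.2) (fun j hj => (hs j (hT hj)).2.1)
      (fun j hj => ?_) fun X' t' h0 h2 h3 => ?_
    · have e1 := Real.log_le_log (hs j (hT hj)).2.1 (hξ j hj).2
      have e2 := Real.log_le_log (by positivity) (hξ j hj).1
      rw [Real.log_div hY.ne' two_ne_zero] at e2
      rw [abs_le]
      constructor <;> linarith [Real.log_two_lt_d9]
    · have e1 : X' ≤ Real.exp 2 * Y := by
        rw [← Real.log_le_log_iff h0 (by positivity),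
          Real.log_mul (Real.exp_pos _).ne' hY.ne', Real.log_exp]
        linarith [(abs_le.1 h2).2]
      have e2 := hb X' t' h0 (e1.trans (by gcongr)) h3
      refine le_trans (sum_le_sum_of_subset_of_nonneg hT fun j hj _ =>
        mul_nonneg (hs j hj).1 (by positivity)) (e2.trans ?_)
      gcongr
  have h2 : 0 < (Y / 2) ^ (1 + δ) := by positivity
  calc ∑ j ∈ T, wt j * (‖Wsum (u j) (ξ j) t‖ ^ 2 / ξ j ^ (1 + δ))
      ≤ ∑ j ∈ T, (wt j * ‖Wsum (u j) (ξ j) t‖ ^ 2) / (Y / 2) ^ (1 + δ) := by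
        refine sum_le_sum fun j hj => ?_
        have e1 : (Y / 2) ^ (1 + δ) ≤ ξ j ^ (1 + δ) :=
          Real.rpow_le_rpow (by positivity) (hξ j hj).1 (by positivity)
        have e2 := (hs j (hT hj)).1
        rw [← mul_div_assoc]
        gcongr
    _ ≤ 2 * Real.exp 8 * (β * (Real.exp 2 * Y) ^ (1 + 2 * δ)) / (Y / 2) ^ (1 + δ) := by
        rw [← sum_div]; gcongr
    _ = _ := by
        have e : Y ^ (1 + 2 * δ) = Y ^ (1 + δ) * Y ^ δ := by
          rw [← Real.rpow_add hY]; congr 1; ring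
        have e3 : 0 < Y ^ (1 + δ) := by positivity
        rw [Real.mul_rpow (Real.exp_pos _).le hY.le, Real.div_rpow hY.le zero_le_two, e]
        field_simp

end Mx

open Mx

theorem pMx : S_Mx := by
  intro δ hδ _
  set K : ℝ := 2 ^ (1 + δ) * (2 * Real.exp 8) * Real.exp 2 ^ (1 + 2 * δ) with hK
  set q : ℝ := (2 : ℝ) ^ (-δ) with hq
  have hK0 : 0 < K := by positivity
  have hq0 : 0 < q := by positivity
  have hq1 : q < 1 := Real.rpow_lt_one_of_one_lt_of_neg one_lt_two (by linarith)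
  have hq2 : 0 < 1 - q := by linarith
  refine ⟨K * (1 + (1 - q)⁻¹), by positivity, fun s wt ξ u X₀ t β hX hβ hs hb => ?_⟩
  have h := sum_dyadic_le s (fun j => X₀ / ξ j)
    (fun j => wt j * (‖Wsum (u j) (ξ j) t‖ ^ 2 / ξ j ^ (1 + δ))) (V := 1) (b0 := K * β * X₀ ^ δ)
    (b := fun j => K * β * X₀ ^ δ * q ^ j) one_pos (fun T hT h0 => ?_) (fun n T hT h0 => ?_)
    ((summable_geometric_of_lt_one hq0.le hq1).mul_left _)
  · rw [tsum_mul_left, tsum_geometric_of_lt_one hq0.le hq1] at h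
    refine h.trans (le_of_eq ?_)
    ring
  · refine block hδ hβ hs hb hX le_rfl hT fun j hj => ⟨?_, (hs j (hT hj)).2.2.1⟩
    have := (div_le_one (hs j (hT hj)).2.1).1 (h0 j hj)
    linarith
  · have hp : (0 : ℝ) < 2 ^ n := by positivity
    have h1 := block (Y := X₀ / 2 ^ n) hδ hβ hs hb (by positivity)
      (div_le_self hX.le (one_le_pow₀ one_le_two)) hT fun j hj => ?_
    · refine h1.trans (le_of_eq ?_)
      rw [Real.div_rpow hX.le hp.le, hq, ← Real.rpow_natCast, ← Real.rpow_natCast,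
        ← Real.rpow_mul zero_le_two, ← Real.rpow_mul zero_le_two, neg_mul,
        Real.rpow_neg zero_le_two, mul_comm (n : ℝ) δ, hK]
      ring
    · have e0 := (hs j (hT hj)).2.1
      obtain ⟨e1, e2⟩ := h0 j hj
      rw [mul_one, lt_div_iff₀ e0] at e1
      rw [mul_one, div_le_iff₀ e0, pow_succ] at e2
      constructor
      · rw [div_div, div_le_iff₀ (by positivity)]; linarith
      · rw [le_div_iff₀ hp]; linarith

end Pool.Agent.P.MP_323ce2_nt.QR
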