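import Pool.Agent.P.MP_323ce2_nt.QR.Ind
import Pool.Agent.P.MP_323ce2_nt.QR.C
import Pool.Agent.P.MP_323ce2_nt.QR.D
import Pool.Agent.P.MP_323ce2_nt.QR.AB0
import Pool.Agent.P.MP_323ce2_nt.QR.AB1
import Pool.Agent.P.MP_323ce2_nt.QR.Cen
import Pool.Agent.P.MP_323ce2_nt.QR.Cnt
import Pool.Agent.P.MP_323ce2_nt.QR.Main
import Pool.Agent.P.MP_323ce2_nt.QR.Mx
import Pool.Agent.P.MP_323ce2_nt.QR.Max2
import Pool.Agent.P.MP_323ce2_nt.QR.Tr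
import Pool.Agent.P.MP_323ce2_nt.QF.All

/-! The recursion layer: the two steps give the mean value theorem. -/

namespace Pool.Agent.P.MP_323ce2_nt.QR

open Pool.Agent.P.MP_26a8c3_nt Pool.Agent.P.MP_26a8c3_nt.QO

theorem cen : S_Cen := pCen (pMain QF.f0 QF.f1)

theorem tr : S_Tr := pTr (pPt QF.f1)

theorem ab : S_AB := fun D d Q h0 h36 =>
  ⟨pAB0 pCnt cen D d Q h0 h36, pAB1 pCnt cen D d Q h0 h36⟩

theorem ii {D : Type} (d : PD D) {Q : O} (h0 : Q ≠ 0) (h36 : 36 ∣ Q) (s0 : STEP0 Q d)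
    (s1 : ∀ i, STEP1 Q d i) : S_II Q d :=
  ii_of tr (pMX pMx) ab (pC tr QF.f3) (pD QF.f3) h0 h36 s0 s1

end Pool.Agent.P.MP_323ce2_nt.QR
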