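import Pool.Agent.P.MP_323ce2_nt.QR.St

/-! The two inductions of the descent and the final form of the mean value theorem. -/

namespace Pool.Agent.P.MP_323ce2_nt.QR

open Pool.Agent.P.MP_26a8c3_nt Pool.Agent.P.MP_26a8c3_nt.QO

variable {D : Type} {d : PD D} {Q : O}

theorem hh_zero (hT : S_Tr) (h0 : Q ≠ 0) (h36 : 36 ∣ Q) (i : ℕ) : HH Q d 0 i := by
  obtain ⟨C, A, hC, h⟩ := hT D d Q i h0 h36
  refine ⟨0, 1, le_rfl, one_pos, le_rfl, fun δ hδ hδ1 => ⟨C, A, hC, ?_⟩⟩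
  intro K M η Y₁ Y₂ t₁ t₂ x ν₁ ν₂ s hK hM hx h1 h2 hY₁ hY₂ hA hs
  refine (h δ K M η Y₁ Y₂ t₁ t₂ x ν₁ ν₂ s hδ hδ1 hM hA.1 hx h1 h2 hY₁ hY₂ hs).trans ?_
  have hL := (d.len i K x hx).1
  have hT := (TT_pos (P := d.L x) (by linarith : 0 < M) (by linarith [hA.1] : 0 ≤ η) (by linarith)).le
  have hh := (ht_pos t₁ t₂).le
  have hK54 : 1 ≤ K ^ 54 := one_le_pow₀ (by linarith)
  simp only [zero_mul, Real.rpow_zero, mul_one, mul_zero, pow_zero, div_one]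
  gcongr
  · exact le_mul_of_one_le_right hC.le hK54
  · linarith

theorem hh_all (hT : S_Tr) (hM : S_MX) (hA : S_AB) (hC : S_C) (hD : S_D) (h0 : Q ≠ 0)
    (h36 : 36 ∣ Q) (s0 : STEP0 Q d) (s1 : ∀ i, STEP1 Q d i) (j i : ℕ) : HH Q d j i := by
  induction i with
  | zero =>
    induction j with
    | zero => exact hh_zero hT h0 h36 0
    | succ j ih =>
      exact hD D d Q _ _ h0 h36 (hC D d Q _ _ h0 h36 ((hA D d Q h0 h36).1 j s0 (hM D d Q j 0 ih)))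
  | succ i ih =>
    exact hD D d Q _ _ h0 h36 (hC D d Q _ _ h0 h36 ((hA D d Q h0 h36).2 j i (s1 i) (hM D d Q j i ih)))

theorem ii_of_hh (h : ∀ j i, HH Q d j i) : S_II Q d := by
  intro i J ε hε
  obtain ⟨c, δ₀, hc, hδ₀, -, h⟩ := h J i
  have hJ : (0 : ℝ) < (J + 1) * c + 1 := by positivity
  set δ := min (min δ₀ ε) (1 / ((J + 1) * c + 1)) with hδ
  have hδp : 0 < δ := lt_min (lt_min hδ₀ hε) (by positivity)
  have hδε : δ ≤ ε := (min_le_left _ _).trans (min_le_right _ _)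
  have hδc : (J + 1) * (c * δ) ≤ 1 := by
    have := (le_div_iff₀ hJ).1 (min_le_right _ _ : δ ≤ _)
    nlinarith
  obtain ⟨C, A, hC, h⟩ := h δ hδp ((min_le_left _ _).trans (min_le_left _ _))
  refine ⟨C * 2 ^ 9, A, by positivity, ?_⟩
  intro K M η Y₁ Y₂ t₁ t₂ x ν₁ ν₂ s hK hM hMJ hx h1 h2 hY₁ hY₂ hA hs
  refine (h K M η Y₁ Y₂ t₁ t₂ x ν₁ ν₂ s hK hM hx h1 h2 hY₁ hY₂ hA hs).trans ?_
  have hL := (d.len i K x hx).1
  have hT := (TT_pos (P := d.L x) (by linarith : 0 < M) (by linarith [hA.1] : 0 ≤ η) (by linarith)).le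
  have hh := (ht_pos t₁ t₂).le
  have hK1 : 1 ≤ K := by linarith
  have hK0 : 0 < K := by linarith
  have e1 : (K * M) ^ (c * δ) ≤ K := by
    calc _ ≤ (K ^ ((J + 1 : ℕ) : ℝ)) ^ (c * δ) := by
          gcongr
          rw [Real.rpow_natCast, pow_succ']
          gcongr
      _ = K ^ ((J + 1) * (c * δ)) := by rw [← Real.rpow_mul hK0.le]; push_cast; rfl
      _ ≤ K ^ (1 : ℝ) := Real.rpow_le_rpow_of_exponent_le hK1 hδc
      _ = K := Real.rpow_one K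
  have e2 : 1 + M / K ^ (6 * J) ≤ 2 := by
    have : M / K ^ (6 * J) ≤ 1 := (div_le_one (by positivity)).2
      (hMJ.trans (pow_le_pow_right₀ hK1 (by omega)))
    linarith
  have hN : 0 < Y₁ * Y₂ * d.L x := by positivity
  have e3 : (Y₁ * Y₂ * d.L x) ^ (1 + δ) ≤ (1 + Y₁ * Y₂ * d.L x) ^ ε * (Y₁ * Y₂ * d.L x) := by
    rw [Real.rpow_add hN, Real.rpow_one, mul_comm]
    gcongr
    exact (Real.rpow_le_rpow hN.le (by linarith) hδp.le).trans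
      (Real.rpow_le_rpow_of_exponent_le (by linarith) hδε)
  calc _ ≤ C * K ^ 54 * K * (ht t₁ t₂ * 1) ^ A * ((1 + Y₁ * Y₂ * d.L x) ^ ε * (Y₁ * Y₂ * d.L x)) *
        (TT M η (d.L x) * 2 ^ 9) := by gcongr
    _ = _ := by rw [mul_one]; ring

theorem ii_of (hT : S_Tr) (hM : S_MX) (hA : S_AB) (hC : S_C) (hD : S_D) (h0 : Q ≠ 0)
    (h36 : 36 ∣ Q) (s0 : STEP0 Q d) (s1 : ∀ i, STEP1 Q d i) : S_II Q d :=
  ii_of_hh (hh_all hT hM hA hC hD h0 h36 s0 s1)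

end Pool.Agent.P.MP_323ce2_nt.QR
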