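import Pool.Agent.P.MP_323ce2_nt.QR.St

/-! Crude bounds: pointwise, and in mean square for small families. -/

namespace Pool.Agent.P.MP_323ce2_nt.QR

open Pool.Agent.P.MP_26a8c3_nt Pool.Agent.P.MP_26a8c3_nt.QO Pool.Agent.P.MP_26a8c3_nt.QA
open Pool.Agent.P.MP_323ce2_nt.QZ Pool.Agent.P.MP_323ce2_nt.QF

theorem pPt (h1 : S_F1) : S_Pt := by
  intro Q hQ h36
  obtain ⟨C, k, hC, h⟩ := h1 Q hQ h36 0
  refine ⟨C ^ 2 + (KO * Real.exp (2 ^ 2 / 4)) ^ 2, 2 * k, by positivity, ?_⟩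
  intro ν m δ M Y t hν hm hM hE hδ hδ1 hY
  have hM1 : 1 ≤ M := (one_le_N hm).trans hM
  have ht : 1 ≤ (1 + |t|) ^ (2 * k) := one_le_pow₀ (by linarith [abs_nonneg t])
  have hM4 : 1 ≤ M ^ 4 := one_le_pow₀ hM1
  rcases le_total 1 Y with hY1 | hY1
  · have a1 := h ν m M Y t hν hm (rad_self hm hM) (fun e => hE ⟨ν, hν, e⟩) hY1
    rw [pow_zero, mul_one] at a1
    have a2 : 1 ≤ Y ^ (1 + δ) := Real.one_le_rpow hY1 (by linarith)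
    calc ‖Lm ν m Y t‖ ^ 2 ≤ (C * (1 + |t|) ^ k * M ^ 2) ^ 2 := by gcongr
      _ = C ^ 2 * (1 + |t|) ^ (2 * k) * M ^ 4 * 1 := by ring
      _ ≤ _ := by
        gcongr
        exact le_add_of_nonneg_right (by positivity)
  · have a1 := norm_Wsum_le (b1_L hν m) hY t (k := 2) (by norm_num)
    have a2 : (Y ^ (2 : ℝ)) ^ 2 ≤ Y ^ (1 + δ) := by
      rw [← Real.rpow_natCast, ← Real.rpow_mul hY.le]
      exact Real.rpow_le_rpow_of_exponent_ge hY hY1 (by push_cast; linarith)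
    calc ‖Lm ν m Y t‖ ^ 2 ≤ (KO * (Real.exp (2 ^ 2 / 4) * Y ^ (2 : ℝ))) ^ 2 :=
          pow_le_pow_left₀ (norm_nonneg _) a1 2
      _ = (KO * Real.exp (2 ^ 2 / 4)) ^ 2 * 1 * 1 * (Y ^ (2 : ℝ)) ^ 2 := by ring
      _ ≤ _ := by
        gcongr
        exact le_add_of_nonneg_left (by positivity)

theorem pTr (h : S_Pt) : S_Tr := by
  intro D d Q i hQ h36
  obtain ⟨C, k, hC, h⟩ := h Q hQ h36
  refine ⟨16 * C ^ 2 * (16 ^ i) ^ 2, 2 * k, by positivity, ?_⟩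
  intro δ K M η Y₁ Y₂ t₁ t₂ x ν₁ ν₂ s hδ hδ1 hM hη hx h1 h2 hY1 hY2 hs
  have hL := (d.len i K x hx).1
  have hH := ht_pos t₁ t₂
  have a1 : d.L x ^ 2 ≤ d.L x ^ (1 + δ) * TT M η (d.L x) := by
    have b1 : d.L x ≤ d.L x ^ (1 + δ) := Real.self_le_rpow_of_one_le hL (by linarith)
    have b2 : 1 ≤ (M * η) ^ (2 / 3 : ℝ) :=
      Real.one_le_rpow (one_le_mul_of_one_le_of_one_le hM hη) (by norm_num)
    have b3 : d.L x ≤ TT M η (d.L x) := by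
      unfold TT
      nlinarith
    rw [sq]
    exact mul_le_mul b1 b3 (by linarith) (by linarith)
  have a2 : ∀ m ∈ s, ‖Lm ν₁ m Y₁ t₁ * Lm ν₂ m Y₂ t₂ * d.F x m‖ ^ 2 ≤
      C * ht t₁ t₂ ^ k * M ^ 4 * Y₁ ^ (1 + δ) * (C * ht t₁ t₂ ^ k * M ^ 4 * Y₂ ^ (1 + δ)) *
        ((16 ^ i) ^ 2 * (d.L x ^ (1 + δ) * TT M η (d.L x))) := by
    intro m hm
    obtain ⟨m0, m1, m2⟩ := hs m hm
    have b1 : ‖Lm ν₁ m Y₁ t₁‖ ^ 2 ≤ C * ht t₁ t₂ ^ k * M ^ 4 * Y₁ ^ (1 + δ) :=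
      (h ν₁ m δ M Y₁ t₁ h1 m0 m1 m2 hδ hδ1 hY1).trans (by gcongr; exact le_ht_left _ _)
    have b2 : ‖Lm ν₂ m Y₂ t₂‖ ^ 2 ≤ C * ht t₁ t₂ ^ k * M ^ 4 * Y₂ ^ (1 + δ) :=
      (h ν₂ m δ M Y₂ t₂ h2 m0 m1 m2 hδ hδ1 hY2).trans (by gcongr; exact le_ht_right _ _)
    have b3 : ‖d.F x m‖ ^ 2 ≤ (16 ^ i) ^ 2 * (d.L x ^ (1 + δ) * TT M η (d.L x)) := by
      refine (pow_le_pow_left₀ (norm_nonneg _) (d.bd i K x m hx) 2).trans ?_
      rw [mul_pow]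
      gcongr
    rw [norm_mul, norm_mul, mul_pow, mul_pow]
    gcongr
  have a3 : (s.card : ℝ) ≤ 16 * M :=
    card_le_of_N_le (by linarith) fun m hm => ⟨(hs m hm).1, (hs m hm).2.1⟩
  have a4 := TT_pos (M := M) (η := η) (P := d.L x) (by linarith) (by linarith) (by linarith)
  refine (Finset.sum_le_card_nsmul _ _ _ a2).trans ?_
  rw [nsmul_eq_mul]
  refine (mul_le_mul_of_nonneg_right a3 (by positivity)).trans (le_of_eq ?_)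
  rw [Real.mul_rpow (by positivity) (by linarith), Real.mul_rpow hY1.le hY2.le]
  ring

end Pool.Agent.P.MP_323ce2_nt.QR
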